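import Pool.Agent.TH592.Nag.Bridge
import Pool.Agent.Helper381.Main

/-! Homology with integral, mod 2 and real coefficients. -/

set_option autoImplicit false

namespace Pool.Agent.X178.Nag

open Pool.Agent.Helper381 (Sing sface sface_sface)
open Pool.Agent.TH592.Nag (bd cyc bou Hm HQ bridge)

section Abs

variable {R : Type} [CommRing R] {C : Type} [AddCommGroup C] [Module R C]

/-- class of an element -/
def hq (Z B : Submodule R C) (z : C) (hz : z ∈ Z) : HQ Z B :=
  Submodule.Quotient.mk ⟨z, hz⟩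

theorem hq_eq_zero {Z B : Submodule R C} {z : C} {hz : z ∈ Z} : hq Z B z hz = 0 ↔ z ∈ B := by
  unfold hq
  rw [Submodule.Quotient.mk_eq_zero]
  rfl

theorem hq_surj {Z B : Submodule R C} (a : HQ Z B) : ∃ z hz, a = hq Z B z hz := by
  obtain ⟨⟨z, hz⟩, rfl⟩ := Submodule.Quotient.mk_surjective _ a
  exact ⟨z, hz, rfl⟩

theorem hq_smul {Z B : Submodule R C} (r : R) (z : C) (hz : z ∈ Z) :
    r • hq Z B z hz = hq Z B (r • z) (Z.smul_mem r hz) := rfl

theorem hq_sum {Z B : Submodule R C} {ι : Type*} (s : Finset ι) (g : ι → R) (z : ι → C)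
    (hz : ∀ i, z i ∈ Z) :
    ∑ i ∈ s, g i • hq Z B (z i) (hz i) = hq Z B (∑ i ∈ s, g i • z i)
      (Submodule.sum_mem _ fun i _ => Submodule.smul_mem _ _ (hz i)) := by
  have h1 : ∀ i, g i • hq Z B (z i) (hz i) = (B.submoduleOf Z).mkQ (g i • ⟨z i, hz i⟩) :=
    fun i => rfl
  simp only [h1]
  rw [← map_sum]
  unfold hq
  rw [Submodule.mkQ_apply]
  congr 1
  apply Subtype.ext
  simp

end Abs

section Coef

variable {R : Type} [CommRing R] {R' : Type} [CommRing R'] {X : Type} [TopologicalSpace X]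

theorem bd_single (n : ℕ) (σ : Sing X (n + 1)) (r : R) :
    bd R X n (Finsupp.single σ r) =
      ∑ i : Fin (n + 2), ((-1 : ℤ) ^ (i : ℕ)) • Finsupp.single (sface n i σ) r := by
  rw [bd, Finsupp.linearCombination_single, Finset.smul_sum]
  refine Finset.sum_congr rfl fun i _ => ?_
  rw [smul_comm, Finsupp.smul_single, smul_eq_mul, mul_one]

/-- change of coefficients along an additive map -/
noncomputable def mapC (φ : R →+ R') (n : ℕ) : (Sing X n →₀ R) →+ (Sing X n →₀ R') :=
  Finsupp.mapRange.addMonoidHom φ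

theorem mapC_apply (φ : R →+ R') (n : ℕ) (c : Sing X n →₀ R) (σ : Sing X n) :
    mapC φ n c σ = φ (c σ) := by
  simp [mapC]

theorem mapC_single (φ : R →+ R') (n : ℕ) (σ : Sing X n) (r : R) :
    mapC φ n (Finsupp.single σ r) = Finsupp.single σ (φ r) := by
  simp [mapC]

theorem bd_mapC (φ : R →+ R') (n : ℕ) (c : Sing X (n + 1) →₀ R) :
    bd R' X n (mapC φ (n + 1) c) = mapC φ n (bd R X n c) := by
  induction c using Finsupp.induction_linear with
  | zero => simp
  | add f g hf hg => rw [map_add, map_add, map_add, map_add, hf, hg]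
  | single σ r =>
    rw [mapC_single, bd_single, bd_single, map_sum]
    refine Finset.sum_congr rfl fun i _ => ?_
    rw [map_zsmul, mapC_single]

theorem bd_int (n : ℕ) (z : Sing X (n + 1) →₀ ℤ) :
    bd ℤ X n z = Pool.Agent.Helper381.bd (sface (X := X)) n z := by
  have h : bd ℤ X n = Pool.Agent.Helper381.bd (sface (X := X)) n := by
    apply Finsupp.lhom_ext'
    intro σ
    apply LinearMap.ext_ring
    simp only [LinearMap.comp_apply, Finsupp.lsingle_apply]
    rw [bd_single, Pool.Agent.Helper381.bd_single]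
  rw [h]

theorem bd_bd (n : ℕ) (c : Sing X (n + 2) →₀ R) : bd R X n (bd R X (n + 1) c) = 0 := by
  induction c using Finsupp.induction_linear with
  | zero => simp
  | add f g hf hg => rw [map_add, map_add, hf, hg, add_zero]
  | single σ r =>
    have h1 : (Finsupp.single σ r : Sing X (n + 2) →₀ R) =
        mapC ((AddMonoidHom.mulRight r).comp (Int.castAddHom R)) (n + 2) (Finsupp.single σ 1) := by
      rw [mapC_single]; simp
    rw [h1, bd_mapC, bd_mapC]
    have h2 : bd ℤ X n (bd ℤ X (n + 1) (Finsupp.single σ 1)) = 0 := by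
      rw [bd_int, bd_int]
      exact Pool.Agent.Helper381.bd_bd (sface (X := X)) (fun n i j σ h => sface_sface n i j σ h) n _
    rw [h2, map_zero]

theorem bou_le_cyc (n : ℕ) : bou R X n ≤ cyc R X n := by
  rintro _ ⟨c, rfl⟩
  cases n with
  | zero => trivial
  | succ n => exact bd_bd n c

/-- class of a cycle -/
noncomputable abbrev cls {n : ℕ} (z : Sing X n →₀ R) (hz : z ∈ cyc R X n) : Hm R X n :=
  hq (cyc R X n) (bou R X n) z hz

theorem cls_eq_zero {n : ℕ} {z : Sing X n →₀ R} {hz : z ∈ cyc R X n} :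
    cls z hz = 0 ↔ ∃ y, bd R X n y = z := hq_eq_zero

theorem cls_surj {n : ℕ} (a : Hm R X n) : ∃ z hz, a = cls (R := R) (X := X) z hz :=
  hq_surj a

theorem cls_sum {n : ℕ} {ι : Type*} (s : Finset ι) (g : ι → R) (z : ι → (Sing X n →₀ R))
    (hz : ∀ i, z i ∈ cyc R X n) :
    ∑ i ∈ s, g i • cls (z i) (hz i) = cls (∑ i ∈ s, g i • z i)
      (Submodule.sum_mem _ fun i _ => Submodule.smul_mem _ _ (hz i)) :=
  hq_sum s g z hz

theorem mapC_cyc (φ : R →+ R') {n : ℕ} {z : Sing X n →₀ R} (hz : z ∈ cyc R X n) :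
    mapC φ n z ∈ cyc R' X n := by
  cases n with
  | zero => trivial
  | succ n =>
    have h : bd R X n z = 0 := hz
    change bd R' X n (mapC φ (n + 1) z) = 0
    rw [bd_mapC, h, map_zero]

end Coef

section Two

variable {X : Type} [TopologicalSpace X]

/-- reduction mod 2 -/
abbrev red : ℤ →+ ZMod 2 := Int.castAddHom (ZMod 2)

theorem red_surj {n : ℕ} (c : Sing X n →₀ ZMod 2) : ∃ w : Sing X n →₀ ℤ, mapC red n w = c := by
  refine ⟨c.mapRange (fun a => (a.val : ℤ)) (by simp), ?_⟩
  ext σ
  rw [mapC_apply, Finsupp.mapRange_apply]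
  simp

theorem red_zero {n : ℕ} {w : Sing X n →₀ ℤ} (h : mapC red n w = 0) :
    ∃ v : Sing X n →₀ ℤ, w = (2 : ℤ) • v := by
  refine ⟨w.mapRange (fun m => m / 2) (by simp), ?_⟩
  ext σ
  rw [Finsupp.smul_apply, Finsupp.mapRange_apply]
  have h1 := DFunLike.congr_fun h σ
  rw [mapC_apply] at h1
  have h2 : (2 : ℤ) ∣ w σ := by
    have := (ZMod.intCast_zmod_eq_zero_iff_dvd (w σ) 2).1 h1
    exact_mod_cast this
  rw [smul_eq_mul]
  omega

theorem two_smul_inj {n : ℕ} {v : Sing X n →₀ ℤ} (h : (2 : ℤ) • v = 0) : v = 0 := by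
  ext σ
  have := DFunLike.congr_fun h σ
  rw [Finsupp.smul_apply, smul_eq_mul, Finsupp.zero_apply] at this
  rw [Finsupp.zero_apply]
  omega

/-- every mod 2 cycle is the reduction of an integral cycle if there is no 2-torsion -/
theorem lift_cycle (hZ : ∀ i, ∀ c : Hm ℤ X i, (2 : ℤ) • c = 0 → c = 0) {n : ℕ}
    {z : Sing X n →₀ ZMod 2} (hz : z ∈ cyc (ZMod 2) X n) :
    ∃ w, w ∈ cyc ℤ X n ∧ mapC red n w = z := by
  obtain ⟨w, hw⟩ := red_surj z
  cases n with
  | zero => exact ⟨w, trivial, hw⟩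
  | succ n =>
    have hz' : bd (ZMod 2) X n z = 0 := hz
    have h1 : mapC red n (bd ℤ X n w) = 0 := by rw [← bd_mapC, hw, hz']
    obtain ⟨v, hv⟩ := red_zero h1
    have hvc : v ∈ cyc ℤ X n := by
      cases n with
      | zero => trivial
      | succ n =>
        have h2 : (2 : ℤ) • bd ℤ X n v = 0 := by
          rw [← map_smul, ← hv, bd_bd]
        exact two_smul_inj h2
    have h3 : (2 : ℤ) • cls v hvc = 0 := by
      rw [hq_smul, cls_eq_zero]
      exact ⟨w, hv⟩
    obtain ⟨u, hu⟩ := cls_eq_zero.mp (hZ n _ h3)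
    refine ⟨w - (2 : ℤ) • u, ?_, ?_⟩
    · change bd ℤ X n (w - (2 : ℤ) • u) = 0
      rw [map_sub, map_smul, hu, hv, sub_self]
    · rw [map_sub, hw]
      have : mapC red (n + 1) ((2 : ℤ) • u) = 0 := by
        ext σ
        rw [mapC_apply, Finsupp.smul_apply, smul_eq_mul]
        simp only [red, Int.coe_castAddHom, Int.cast_mul, Finsupp.zero_apply]
        have : ((2 : ℤ) : ZMod 2) = 0 := by decide
        rw [this, zero_mul]
      rw [this, sub_zero]

/-- independent mod 2 implies independent over `ℤ` -/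
theorem indep_int (hZ : ∀ i, ∀ c : Hm ℤ X i, (2 : ℤ) • c = 0 → c = 0) {n : ℕ} {ι : Type*}
    [Fintype ι] (w : ι → (Sing X n →₀ ℤ)) (hw : ∀ i, w i ∈ cyc ℤ X n)
    (hli : LinearIndependent (ZMod 2) (fun i => cls (mapC red n (w i)) (mapC_cyc red (hw i)))) :
    ∀ b : ι → ℤ, ∑ i, b i • cls (w i) (hw i) = 0 → ∀ i, b i = 0 := by
  have key : ∀ k : ℕ, ∀ b : ι → ℤ, ∑ i, b i • cls (w i) (hw i) = 0 → ∀ i, (2 : ℤ) ^ k ∣ b i := by
    intro k
    induction k with
    | zero => intro b _ i; simp
    | succ k ih =>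
      intro b hb
      have h0 := hb
      rw [cls_sum, cls_eq_zero] at hb
      obtain ⟨y, hy⟩ := hb
      have h1 : ∑ i, ((b i : ℤ) : ZMod 2) • cls (mapC red n (w i)) (mapC_cyc red (hw i)) = 0 := by
        rw [cls_sum, cls_eq_zero]
        refine ⟨mapC red (n + 1) y, ?_⟩
        rw [bd_mapC, hy, map_sum]
        refine Finset.sum_congr rfl fun i _ => ?_
        ext σ
        rw [mapC_apply, Finsupp.smul_apply, Finsupp.smul_apply, mapC_apply]
        simp
      have h2 := Fintype.linearIndependent_iff.mp hli _ h1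
      have h3 : ∀ i, ∃ c : ℤ, b i = 2 * c := by
        intro i
        have := (ZMod.intCast_zmod_eq_zero_iff_dvd (b i) 2).1 (h2 i)
        exact_mod_cast this
      choose c hc using h3
      have h4 : (2 : ℤ) • ∑ i, c i • cls (w i) (hw i) = 0 := by
        rw [Finset.smul_sum, ← h0]
        refine Finset.sum_congr rfl fun i _ => ?_
        rw [smul_smul, ← hc i]
      have h5 := ih c (hZ n _ h4)
      intro i
      rw [hc i, pow_succ']
      exact mul_dvd_mul_left 2 (h5 i)
  intro b hb i
  by_contra hne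
  have h1 := key (b i).natAbs b hb i
  have h2 := Int.le_of_dvd (abs_pos.mpr hne) ((dvd_abs _ _).mpr h1)
  have h3 : ((b i).natAbs : ℤ) < 2 ^ (b i).natAbs := by
    exact_mod_cast Nat.lt_two_pow_self
  rw [Int.natCast_natAbs] at h3
  linarith

theorem clear_denoms (S : Finset ℚ) : ∃ N : ℤ, N ≠ 0 ∧ ∀ q ∈ S, ∃ m : ℤ, (N : ℚ) * q = m := by
  classical
  induction S using Finset.induction_on with
  | empty => exact ⟨1, one_ne_zero, by simp⟩
  | insert a S _ ih =>
    obtain ⟨N, hN, h⟩ := ih
    refine ⟨N * a.den, mul_ne_zero hN (by exact_mod_cast a.den_nz), ?_⟩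
    intro q hq
    rw [Finset.mem_insert] at hq
    rcases hq with rfl | hq
    · refine ⟨N * q.num, ?_⟩
      push_cast
      have : (q.den : ℚ) * q = q.num := by rw [mul_comm]; exact Rat.mul_den_eq_num q
      rw [mul_assoc, this]
    · obtain ⟨m, hm⟩ := h q hq
      refine ⟨m * a.den, ?_⟩
      push_cast
      rw [← hm]; ring

/-- independence over `ℤ` implies independence over `ℝ` -/
theorem indep_real {n : ℕ} {ι : Type*} [Fintype ι] (w : ι → (Sing X n →₀ ℤ))
    (hw : ∀ i, w i ∈ cyc ℤ X n)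
    (hli : ∀ b : ι → ℤ, ∑ i, b i • cls (w i) (hw i) = 0 → ∀ i, b i = 0) :
    LinearIndependent ℝ (fun i => cls (mapC (Int.castAddHom ℝ) n (w i))
      (mapC_cyc (Int.castAddHom ℝ) (hw i))) := by
  classical
  rw [Fintype.linearIndependent_iff]
  intro g hg i0
  by_contra hne
  rw [cls_sum, cls_eq_zero] at hg
  obtain ⟨y, hy⟩ := hg
  obtain ⟨l, hl⟩ : ∃ l : Module.Dual ℚ ℝ, l (g i0) ≠ 0 := by
    by_contra hcon
    push Not at hcon
    exact hne ((Module.forall_dual_apply_eq_zero_iff ℚ (g i0)).mp hcon)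
  set la : ℝ →+ ℚ := l.toAddMonoidHom with hla
  set yq : Sing X (n + 1) →₀ ℚ := mapC la (n + 1) y with hyq
  have h1 : bd ℚ X n yq = ∑ i, l (g i) • mapC (Int.castAddHom ℚ) n (w i) := by
    rw [hyq, bd_mapC, hy, map_sum]
    refine Finset.sum_congr rfl fun i _ => ?_
    ext σ
    rw [mapC_apply, Finsupp.smul_apply, Finsupp.smul_apply, mapC_apply, mapC_apply]
    simp only [Int.coe_castAddHom, smul_eq_mul]
    change l (g i * ((w i σ : ℤ) : ℝ)) = l (g i) * ((w i σ : ℤ) : ℚ)
    have : g i * ((w i σ : ℤ) : ℝ) = (w i σ : ℤ) • g i := by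
      rw [zsmul_eq_mul, mul_comm]
    rw [this, map_zsmul, zsmul_eq_mul, mul_comm]
  obtain ⟨N, hN, hNS⟩ := clear_denoms (yq.support.image yq ∪ Finset.univ.image (fun i => l (g i)))
  have hb : ∀ i, ∃ m : ℤ, (N : ℚ) * l (g i) = m := fun i =>
    hNS _ (Finset.mem_union_right _ (Finset.mem_image.mpr ⟨i, Finset.mem_univ _, rfl⟩))
  choose b hb using hb
  have hyint : ∀ τ, ∃ m : ℤ, (N : ℚ) * yq τ = m := by
    intro τ
    by_cases hτ : τ ∈ yq.support
    · exact hNS _ (Finset.mem_union_left _ (Finset.mem_image.mpr ⟨τ, hτ, rfl⟩))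
    · rw [Finsupp.notMem_support_iff] at hτ
      exact ⟨0, by rw [hτ]; simp⟩
  choose ym hym using hyint
  have hNq : (N : ℚ) ≠ 0 := by exact_mod_cast hN
  have hsupp : ∀ τ, ym τ ≠ 0 → τ ∈ yq.support := by
    intro τ hτ
    rw [Finsupp.mem_support_iff]
    intro h0
    apply hτ
    have := hym τ
    rw [h0, mul_zero] at this
    exact_mod_cast this.symm
  set yz : Sing X (n + 1) →₀ ℤ := Finsupp.onFinset yq.support ym hsupp with hyz
  have hyz1 : mapC (Int.castAddHom ℚ) (n + 1) yz = (N : ℚ) • yq := by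
    ext τ
    rw [mapC_apply, Finsupp.smul_apply, smul_eq_mul, hym]
    simp [hyz]
  have h2 : bd ℤ X n yz = ∑ i, b i • w i := by
    have hinj : Function.Injective (mapC (X := X) (Int.castAddHom ℚ) n) := by
      intro a a' haa
      ext σ
      have := DFunLike.congr_fun haa σ
      rw [mapC_apply, mapC_apply] at this
      simpa using this
    apply hinj
    rw [← bd_mapC, hyz1, map_smul, h1, map_sum, Finset.smul_sum]
    refine Finset.sum_congr rfl fun i _ => ?_
    ext σ
    rw [Finsupp.smul_apply, Finsupp.smul_apply, mapC_apply, mapC_apply, Finsupp.smul_apply]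
    simp only [Int.coe_castAddHom, smul_eq_mul]
    rw [← mul_assoc, hb]
    push_cast
    rfl
  have h3 : ∑ i, b i • cls (w i) (hw i) = 0 := by
    rw [cls_sum, cls_eq_zero]
    exact ⟨yz, h2⟩
  have h4 := hli b h3 i0
  have h5 := hb i0
  rw [h4] at h5
  have h6 : (N : ℚ) * l (g i0) = 0 := by rw [h5]; simp
  rcases mul_eq_zero.mp h6 with h | h
  · exact hNq h
  · exact hl h

theorem betti_le (n : ℕ) (hZ : ∀ i, ∀ c : Hm ℤ X i, (2 : ℤ) • c = 0 → c = 0)
    (hR : Module.Finite ℝ (Hm ℝ X n)) :
    Module.Finite (ZMod 2) (Hm (ZMod 2) X n) ∧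
      Module.finrank (ZMod 2) (Hm (ZMod 2) X n) ≤ Module.finrank ℝ (Hm ℝ X n) := by
  classical
  have : Fact (Nat.Prime 2) := ⟨Nat.prime_two⟩
  have hrank : Module.rank (ZMod 2) (Hm (ZMod 2) X n) ≤ (Module.finrank ℝ (Hm ℝ X n) : ℕ) := by
    apply rank_le
    intro s hs
    have hlift : ∀ a : s, ∃ w : Sing X n →₀ ℤ, ∃ hw : w ∈ cyc ℤ X n,
        cls (mapC red n w) (mapC_cyc red hw) = a.1 := by
      rintro ⟨a, ha⟩
      obtain ⟨z, hz, rfl⟩ := cls_surj a
      obtain ⟨w, hw, hwz⟩ := lift_cycle hZ hz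
      refine ⟨w, hw, ?_⟩
      simp only [hwz]
    choose w hw hwa using hlift
    have hli : LinearIndependent (ZMod 2)
        (fun i => cls (mapC red n (w i)) (mapC_cyc red (hw i))) := by
      simp only [hwa]
      exact hs
    have h1 := indep_real w hw (indep_int hZ w hw hli)
    have h2 := h1.fintype_card_le_finrank
    rwa [Fintype.card_coe] at h2
  refine ⟨?_, Module.finrank_le_of_rank_le hrank⟩
  rw [← Module.rank_lt_aleph0_iff]
  exact lt_of_le_of_lt hrank (Cardinal.natCast_lt_aleph0 (n := _))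

end Two

section Dual

/-- homology as a subspace of the quotient by the boundaries -/
noncomputable abbrev H0 (k : Type) [Field k] (X : Type) [TopologicalSpace X] (n : ℕ) :=
  (cyc k X n).map (LinearMap.range (bd k X n)).mkQ

theorem H0_equiv (k : Type) [Field k] (X : Type) [TopologicalSpace X] (n : ℕ) :
    Nonempty (Hm k X n ≃ₗ[k] H0 k X n) := by
  let f := (LinearMap.range (bd k X n)).mkQ ∘ₗ (cyc k X n).subtype
  have h1 : (bou k X n).submoduleOf (cyc k X n) = LinearMap.ker f := by
    simp only [f, LinearMap.ker_comp, Submodule.ker_mkQ]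
    rfl
  have h2 : LinearMap.range f = H0 k X n := by
    simp only [f, LinearMap.range_comp, Submodule.range_subtype]
  exact ⟨(Submodule.quotEquivOfEq _ _ h1).trans (f.quotKerEquivRange.trans (LinearEquiv.ofEq _ _ h2))⟩

open Pool.Agent.Helper381 (altd cobound SingCoh altd_apply)

theorem singCoh_dual (k : Type) [Field k] (X : Type) [TopologicalSpace X] (n : ℕ) :
    Nonempty (SingCoh k X n ≃ₗ[k] Module.Dual k (H0 k X n)) := by
  let pair : ∀ n : ℕ, (Sing X n → k) ≃ₗ[k] Module.Dual k (Sing X n →₀ k) :=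
    fun n => Finsupp.llift k k k (Sing X n)
  have hpair : ∀ (n : ℕ) (f : Sing X n → k) (σ : Sing X n) (c : k),
      pair n f (Finsupp.single σ c) = c * f σ := by
    intro n f σ c
    show Finsupp.llift k k k (Sing X n) f (Finsupp.single σ c) = c * f σ
    rw [Finsupp.llift_apply, Finsupp.lift_apply, Finsupp.sum_single_index, smul_eq_mul]
    rw [zero_smul]
  have hcomm : ∀ (n : ℕ) (f : Sing X n → k),
      pair (n + 1) (altd k (sface (X := X)) n f) = (pair n f) ∘ₗ (bd k X n) := by
    intro n f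
    refine Finsupp.lhom_ext' fun σ => LinearMap.ext_ring ?_
    show pair (n + 1) (altd k (sface (X := X)) n f) (Finsupp.single σ 1) =
      pair n f (bd k X n (Finsupp.single σ 1))
    rw [bd_single, map_sum, hpair, one_mul, altd_apply]
    refine Finset.sum_congr rfl fun i _ => ?_
    rw [map_zsmul, hpair, one_mul, zsmul_eq_mul]
    push_cast
    rfl
  have hker : (LinearMap.ker (altd k (sface (X := X)) n)).map (pair n).toLinearMap =
      (LinearMap.range (bd k X n)).dualAnnihilator := by
    apply le_antisymm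
    · rintro _ ⟨f, hf, rfl⟩
      rw [Submodule.mem_dualAnnihilator]
      rintro _ ⟨z, rfl⟩
      have h1 := hcomm n f
      have hf' : altd k (sface (X := X)) n f = 0 := hf
      rw [hf', map_zero] at h1
      exact (LinearMap.congr_fun h1 z).symm
    · intro ψ hψ
      rw [Submodule.mem_dualAnnihilator] at hψ
      refine ⟨(pair n).symm ψ, ?_, (pair n).apply_symm_apply ψ⟩
      show altd k (sface (X := X)) n ((pair n).symm ψ) = 0
      apply (pair (n + 1)).injective
      rw [hcomm, map_zero, (pair n).apply_symm_apply]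
      exact LinearMap.ext fun z => hψ _ ⟨z, rfl⟩
  let e1 : LinearMap.ker (altd k (sface (X := X)) n) ≃ₗ[k]
      (LinearMap.range (bd k X n)).dualAnnihilator :=
    ((pair n).submoduleMap (LinearMap.ker (altd k (sface (X := X)) n))).trans
      (LinearEquiv.ofEq _ _ hker)
  have he1 : ∀ (f : LinearMap.ker (altd k (sface (X := X)) n)) (c : Sing X n →₀ k),
      (e1 f : Module.Dual k (Sing X n →₀ k)) c = pair n f.1 c := fun f c => rfl
  let Φ : LinearMap.ker (altd k (sface (X := X)) n) →ₗ[k] Module.Dual k (H0 k X n) :=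
    (H0 k X n).dualRestrict ∘ₗ
      ((LinearMap.range (bd k X n)).dualQuotEquivDualAnnihilator.symm.toLinearMap ∘ₗ
        e1.toLinearMap)
  have hΦ : ∀ (f : LinearMap.ker (altd k (sface (X := X)) n)) (c : Sing X n →₀ k)
      (hc : (LinearMap.range (bd k X n)).mkQ c ∈ H0 k X n),
      Φ f ⟨(LinearMap.range (bd k X n)).mkQ c, hc⟩ = pair n f.1 c := by
    intro f c hc
    show ((LinearMap.range (bd k X n)).dualQuotEquivDualAnnihilator.symm (e1 f))
      (Submodule.Quotient.mk c) = pair n f.1 c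
    rw [Submodule.dualQuotEquivDualAnnihilator_symm_apply_mk]
    exact he1 f c
  have hsurj : Function.Surjective Φ := by
    have h1 : Function.Surjective (H0 k X n).dualRestrict := Subspace.dualRestrict_surjective
    intro ψ
    obtain ⟨χ, hχ⟩ := h1 ψ
    refine ⟨e1.symm ((LinearMap.range (bd k X n)).dualQuotEquivDualAnnihilator χ), ?_⟩
    show (H0 k X n).dualRestrict ((LinearMap.range (bd k X n)).dualQuotEquivDualAnnihilator.symm
      (e1 (e1.symm ((LinearMap.range (bd k X n)).dualQuotEquivDualAnnihilator χ)))) = ψ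
    rw [LinearEquiv.apply_symm_apply, LinearEquiv.symm_apply_apply, hχ]
  have hkerΦ : ∀ f : LinearMap.ker (altd k (sface (X := X)) n),
      Φ f = 0 ↔ ∀ c ∈ cyc k X n, pair n f.1 c = 0 := by
    intro f
    constructor
    · intro h c hc
      have h1 : (LinearMap.range (bd k X n)).mkQ c ∈ H0 k X n := ⟨c, hc, rfl⟩
      rw [← hΦ f c h1, h]
      rfl
    · intro h
      refine LinearMap.ext ?_
      rintro ⟨y, hy⟩
      obtain ⟨c, hc, rfl⟩ := hy
      exact (hΦ f c ⟨c, hc, rfl⟩).trans (h c hc)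
  have hcob : ∀ f : Sing X n → k, (∀ c ∈ cyc k X n, pair n f c = 0) ↔
      f ∈ cobound k (fun n => Sing X n → k) (fun n => altd k (sface (X := X)) n) n := by
    cases n with
    | zero =>
      intro f
      constructor
      · intro h
        have h1 : pair 0 f = 0 := LinearMap.ext fun c => h c Submodule.mem_top
        have h2 : f = 0 := by
          apply (pair 0).injective
          rw [h1, map_zero]
        rw [h2]
        exact Submodule.zero_mem _
      · intro h c _
        have h2 : f = 0 := h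
        rw [h2, map_zero]
        rfl
    | succ m =>
      intro f
      constructor
      · intro h
        have h1 : pair (m + 1) f ∈ (LinearMap.ker (bd k X m)).dualAnnihilator := by
          rw [Submodule.mem_dualAnnihilator]
          exact fun c hc => h c hc
        rw [← LinearMap.range_dualMap_eq_dualAnnihilator_ker] at h1
        obtain ⟨ψ, hψ⟩ := h1
        refine ⟨(pair m).symm ψ, ?_⟩
        apply (pair (m + 1)).injective
        rw [hcomm, (pair m).apply_symm_apply]
        exact hψ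
      · rintro ⟨g, rfl⟩ c hc
        show pair (m + 1) (altd k (sface (X := X)) m g) c = 0
        rw [hcomm]
        have hc' : bd k X m c = 0 := hc
        show pair m g (bd k X m c) = 0
        rw [hc', map_zero]
  have hkereq : (cobound k (fun n => Sing X n → k) (fun n => altd k (sface (X := X)) n) n).comap
      (LinearMap.ker (altd k (sface (X := X)) n)).subtype = LinearMap.ker Φ := by
    ext f
    rw [LinearMap.mem_ker, hkerΦ f, hcob]
    rfl
  exact ⟨(Submodule.quotEquivOfEq _ _ hkereq).trans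
    (Φ.quotKerEquivOfSurjective hsurj)⟩

/-- finite cohomology: homology has the same dimension -/
theorem finrank_Hm (k : Type) [Field k] (X : Type) [TopologicalSpace X] (n : ℕ)
    (h : Module.Finite k (SingCoh k X n)) :
    Module.Finite k (Hm k X n) ∧
      Module.finrank k (Hm k X n) = Module.finrank k (SingCoh k X n) := by
  obtain ⟨e⟩ := singCoh_dual k X n
  obtain ⟨e'⟩ := H0_equiv k X n
  have h2 : Module.Finite k (Module.Dual k (H0 k X n)) := Module.Finite.equiv e
  have h3 : Module.Finite k (H0 k X n) := (Module.finite_dual_iff k).1 h2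
  have h4 : Module.Finite k (Hm k X n) := Module.Finite.equiv e'.symm
  refine ⟨h4, ?_⟩
  rw [e'.finrank_eq, e.finrank_eq, Subspace.dual_finrank_eq]

end Dual

end Pool.Agent.X178.Nag
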