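import Pool.Agent.Helper775.Tight.Compare
import Pool.Agent.Helper775.Tight.Dim
import Pool.Agent.Helper381.Main

/-! Mod 2 singular cohomology of a compact `d`-manifold vanishes above degree `d`. -/

set_option autoImplicit false

namespace Pool.Agent.X178.Nag

open Pool.Agent.Helper381 Set Topology
open Pool.Agent.Helper775.Tight (SCh sdf Sg AS Theta theta theta_surj ex_of_locally_embed)

section Small

variable {k : Type*} [CommRing k] {X : Type*} [TopologicalSpace X] (𝒞 : Set (Set X))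

/-- a cocycle vanishing on small simplices is a coboundary -/
theorem cob_of_small_zero (hopen : ∀ C ∈ 𝒞, IsOpen C) (hcov : ∀ x : X, ∃ C ∈ 𝒞, x ∈ C) {n : ℕ}
    (f : Sing X (n + 1) → k) (hf : altd k (sface (X := X)) (n + 1) f = 0)
    (h0 : ∀ σ ∈ smallSet 𝒞 (n + 1), f σ = 0) :
    ∃ g : Sing X n → k, altd k (sface (X := X)) n g = f := by
  refine ⟨fun σ => evc f (DD 𝒞 n (Finsupp.single σ 1)), ?_⟩
  funext σ
  rw [altd_eq_ev]
  have h1 : Finsupp.linearCombination ℤ (fun σ => evc f (DD 𝒞 n (Finsupp.single σ 1))) =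
      (evc f).comp (DD 𝒞 n) := by
    apply Finsupp.lhom_ext'
    intro σ
    apply LinearMap.ext_ring
    simp only [LinearMap.comp_apply, Finsupp.lsingle_apply, Finsupp.linearCombination_single,
      one_smul]
  rw [h1, LinearMap.comp_apply]
  have h2 := rho_succ 𝒞 n (Finsupp.single σ 1)
  have h3 : evc f (rho 𝒞 (n + 1) (Finsupp.single σ 1)) = 0 := by
    have := evc_congr (smallSet 𝒞 (n + 1)) f 0 (fun τ hτ => by rw [h0 τ hτ]; rfl) _
      (rho_small 𝒞 hopen hcov (n + 1) (Finsupp.single σ 1))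
    rw [this]
    simp [evc]
  have h4 : evc f (sbd X (n + 1) (DD 𝒞 (n + 1) (Finsupp.single σ 1))) = 0 := by
    have := ev_altd (sface (X := X)) (n + 1) f (DD 𝒞 (n + 1) (Finsupp.single σ 1))
    rw [hf] at this
    rw [← this]
    simp
  rw [h2, map_sub, map_sub, h4, sub_zero, evc_single] at h3
  exact (sub_eq_zero.mp h3).symm

end Small

theorem altd_two {X : Type*} [TopologicalSpace X] (n : ℕ) (g : Sing X n → ZMod 2)
    (σ : Sing X (n + 1)) :
    altd (ZMod 2) (sface (X := X)) n g σ = ∑ i : Fin (n + 2), g (sface n i σ) := by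
  rw [altd_apply]
  refine Finset.sum_congr rfl fun i _ => ?_
  have : (-1 : ZMod 2) = 1 := by decide
  rw [this, one_pow, one_mul]

section Man

variable {M : Type*} [MetricSpace M] [CompactSpace M] (d : ℕ)
  [ChartedSpace (EuclideanSpace ℝ (Fin d)) M]

include d in
theorem cob_above (n : ℕ) (hn : d ≤ n) (hn1 : 1 ≤ n) (f : Sing M (n + 1) → ZMod 2)
    (hf : altd (ZMod 2) (sface (X := M)) (n + 1) f = 0) :
    ∃ g : Sing M n → ZMod 2, altd (ZMod 2) (sface (X := M)) n g = f := by
  classical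
  set s : SCh M := Function.update 0 (n + 1) f with hs
  have hsn : ∀ σ, s (n + 1) σ = f σ := by
    intro σ; rw [hs, Function.update_self]
  have hcoc : (Sg M).Coc univ (n + 2) s := by
    intro z _
    refine ⟨univ, Filter.univ_mem, fun σ _ => ?_⟩
    change ∑ i : Fin (n + 3), s (n + 1) (Helper775.Tight.sface (n + 1) i σ) = 0
    have h1 := congrFun hf σ
    rw [altd_two] at h1
    simp only [hsn]
    exact h1
  obtain ⟨c, hc1, k1, hk1⟩ := theta_surj (m := d) isCompact_univ hcoc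
  have hloc : ∀ q : M, ∃ K ∈ 𝓝 q, IsCompact K ∧ ∃ φ : M → (Fin d → ℝ),
      ContinuousOn φ K ∧ InjOn φ K := by
    intro q
    set φ := chartAt (EuclideanSpace ℝ (Fin d)) q with hφ
    obtain ⟨K, hKn, hKs, hKc⟩ := local_compact_nhds (φ.open_source.mem_nhds (mem_chart_source _ q))
    refine ⟨K, hKn, hKc, fun x => (φ x).ofLp, ?_, ?_⟩
    · exact (PiLp.continuous_ofLp 2 _).comp_continuousOn (φ.continuousOn.mono hKs)
    · intro x hx y hy hxy
      apply φ.injOn (hKs hx) (hKs hy)
      ext i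
      exact congrFun hxy i
  obtain ⟨k2, hk2⟩ := ex_of_locally_embed (m := d) hloc (isCompact_univ (X := M)) (n := n + 2)
    (by omega) (by omega) c hc1
  set k3 : SCh M := k1 + theta k2 with hk3
  have hker : ∀ z : M, s - (Sg M).D k3 ∈ (Sg M).N z (n + 2) := by
    intro z
    have a1 := hk1 z (mem_univ z)
    have a2 := (Theta (P := M)).mem z _ _ (hk2 z (mem_univ z))
    have a3 := (Theta (P := M)).comm z (n + 2) k2
    have e : s - (Sg M).D k3 = (s - theta c - (Sg M).D k1) +
        ((Theta (P := M)).f (c - (AS M).D k2)) - ((Sg M).D ((Theta (P := M)).f k2) -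
          (Theta (P := M)).f ((AS M).D k2)) := by
      rw [hk3, map_add, map_sub]
      simp only [Helper775.Tight.Theta_f]
      abel
    rw [e]
    exact sub_mem (add_mem a1 a2) a3
  set r : Sing M (n + 1) → ZMod 2 := f - altd (ZMod 2) (sface (X := M)) n (k3 n) with hr
  have hrcoc : altd (ZMod 2) (sface (X := M)) (n + 1) r = 0 := by
    rw [hr, map_sub, hf]
    have : altd (ZMod 2) (sface (X := M)) (n + 1) (altd (ZMod 2) (sface (X := M)) n (k3 n)) = 0 :=
      altd_altd (sface (X := M)) (fun n i j σ h => sface_sface n i j σ h) n (k3 n)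
    rw [this, sub_zero]
  set 𝒞 : Set (Set M) := {W | IsOpen W ∧ ∀ σ : Sing M (n + 1), range σ ⊆ W → r σ = 0} with h𝒞
  have hcov : ∀ x : M, ∃ C ∈ 𝒞, x ∈ C := by
    intro x
    obtain ⟨W, hW, h⟩ := hker x
    obtain ⟨U, hUW, hU, hxU⟩ := mem_nhds_iff.1 hW
    refine ⟨U, ⟨hU, fun σ hσ => ?_⟩, hxU⟩
    have h1 := h σ (hσ.trans hUW)
    change s (n + 1) σ - ∑ i : Fin (n + 2), k3 n (Helper775.Tight.sface n i σ) = 0 at h1
    rw [hsn] at h1
    simp only [hr, Pi.sub_apply]
    rw [altd_two]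
    exact h1
  obtain ⟨g, hg⟩ := cob_of_small_zero 𝒞 (fun C hC => hC.1) hcov r hrcoc (by
    rintro σ ⟨C, hC, hσ⟩
    exact hC.2 σ hσ)
  refine ⟨k3 n + g, ?_⟩
  rw [map_add, hg, hr]
  abel

include d in
theorem finrank_above (n : ℕ) (hn : d ≤ n) (hn1 : 1 ≤ n) :
    Module.finrank (ZMod 2) (SingCoh (ZMod 2) M (n + 1)) = 0 := by
  have : Subsingleton (SingCoh (ZMod 2) M (n + 1)) := by
    refine ⟨fun a b => ?_⟩
    have key : ∀ a : SingCoh (ZMod 2) M (n + 1), a = 0 := by
      intro a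
      obtain ⟨⟨f, hf⟩, rfl⟩ := Submodule.Quotient.mk_surjective _ a
      apply (Submodule.Quotient.mk_eq_zero _).mpr
      obtain ⟨g, hg⟩ := cob_above (M := M) d n hn hn1 f hf
      exact ⟨g, hg⟩
    rw [key a, key b]
  exact Module.finrank_zero_of_subsingleton

end Man

end Pool.Agent.X178.Nag
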