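import Pool.Agent.X178.Nag.Sym
import Pool.Agent.X178.Nag.Dim
import Pool.Agent.X178.Nag.Alg

/-! Nagano's question for singular homology. -/

set_option autoImplicit false

namespace Pool.Agent.X178.Nag

open Pool.Agent.Helper381 Bundle Manifold Module
open Pool.Agent.TH592.Nag (Hm)
open scoped ContDiff

theorem edist_ne_top_of_preconnected {M : Type*} [PseudoEMetricSpace M] [PreconnectedSpace M]
    (x y : M) : edist x y ≠ ⊤ := by
  have hcl : IsClopen {z : M | edist z x < ⊤} := by
    constructor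
    · rw [← isOpen_compl_iff, EMetric.isOpen_iff]
      intro z hz
      refine ⟨1, one_pos, ?_⟩
      intro w hw hwx
      apply hz
      have h1 : edist w z < 1 := hw
      have h2 : edist w x < ⊤ := hwx
      refine lt_of_le_of_lt (edist_triangle z w x) (ENNReal.add_lt_top.mpr ⟨?_, h2⟩)
      rw [edist_comm]
      exact h1.trans ENNReal.one_lt_top
    · rw [EMetric.isOpen_iff]
      intro z hz
      refine ⟨1, one_pos, ?_⟩
      intro w hw
      have h1 : edist w z < 1 := hw
      have h2 : edist z x < ⊤ := hz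
      exact lt_of_le_of_lt (edist_triangle w z x)
        (ENNReal.add_lt_top.mpr ⟨h1.trans ENNReal.one_lt_top, h2⟩)
  have hu := hcl.eq_univ ⟨x, by simp⟩
  have hy : y ∈ {z : M | edist z x < ⊤} := by rw [hu]; trivial
  rw [edist_comm]
  exact ne_of_lt hy

theorem subsingleton_of_zero {M : Type*} [TopologicalSpace M] [PreconnectedSpace M]
    [ChartedSpace (EuclideanSpace ℝ (Fin 0)) M] : Subsingleton M := by
  have : DiscreteTopology M := by
    rw [discreteTopology_iff_isOpen_singleton]
    intro x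
    have h1 : (chartAt (EuclideanSpace ℝ (Fin 0)) x).source = {x} := by
      ext y
      constructor
      · intro hy
        exact (chartAt (EuclideanSpace ℝ (Fin 0)) x).injOn hy (mem_chart_source _ x)
          (Subsingleton.elim _ _)
      · rintro rfl
        exact mem_chart_source _ _
    rw [← h1]
    exact (chartAt (EuclideanSpace ℝ (Fin 0)) x).open_source
  exact PreconnectedSpace.trivial_of_discrete

theorem finrank_point {M : Type*} [TopologicalSpace M] [Subsingleton M] [Nonempty M] :
    finrank (ZMod 2) (SingCoh (ZMod 2) M 1) = 0 := by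
  have hsub : ∀ n, Subsingleton (Sing M n) := fun n => ⟨fun a b => by
    ext x; exact Subsingleton.elim _ _⟩
  have : Subsingleton (SingCoh (ZMod 2) M 1) := by
    have key : ∀ a : SingCoh (ZMod 2) M 1, a = 0 := by
      intro a
      obtain ⟨⟨f, hf⟩, rfl⟩ := Submodule.Quotient.mk_surjective _ a
      have hf' : altd (ZMod 2) (sface (X := M)) 1 f = 0 := hf
      have h0 : f = 0 := by
        funext σ
        obtain ⟨p⟩ := ‹Nonempty M›
        have h1 := congrFun hf' (ContinuousMap.const _ p : Sing M 2)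
        rw [altd_two, Fin.sum_univ_three] at h1
        have h2 : ∀ i, sface 1 i (ContinuousMap.const _ p : Sing M 2) = σ := fun i =>
          (hsub 1).elim _ _
        rw [h2, h2, h2] at h1
        have h3 : ∀ a : ZMod 2, a + a + a = a := by decide
        rw [h3] at h1
        exact h1
      subst h0
      rfl
    exact ⟨fun a b => by rw [key a, key b]⟩
  exact finrank_zero_of_subsingleton

theorem main_metric (d : ℕ) (M : Type) [MetricSpace M] [ChartedSpace (EuclideanSpace ℝ (Fin d)) M]
    [IsManifold (𝓡 d) ∞ M]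
    [RiemannianBundle (fun x : M ↦ TangentSpace (𝓡 d) x)]
    [IsContMDiffRiemannianBundle (𝓡 d) ∞ (EuclideanSpace ℝ (Fin d))
      (fun x : M ↦ TangentSpace (𝓡 d) x)]
    [IsRiemannianManifold (𝓡 d) M] [CompactSpace M] [ConnectedSpace M]
    (s : M → M → M)
    (hs : ∀ x : M, Isometry (s x) ∧ s x x = x ∧
      mfderiv (𝓡 d) (𝓡 d) (s x) x = -ContinuousLinearMap.id ℝ (EuclideanSpace ℝ (Fin d)))
    (A : Finset M) (hA : ∀ x ∈ A, ∀ y ∈ A, s x y = y)
    (hZ : ∀ i, ∀ c : Hm ℤ M i, (2 : ℤ) • c = 0 → c = 0) :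
    A.card ≤ ∑ i ∈ Finset.range (d + 1), finrank ℝ (Hm ℝ M i) := by
  obtain ⟨R, G⟩ := riemannian_geo (E := EuclideanSpace ℝ (Fin d)) (M := M)
  have hanti : IsAntipodal (A : Set M) := by
    intro x hx y hy
    refine ⟨isoEquiv (hs x).1, isSymmetryAt_of_mfderiv (hs x).1 (hs x).2.1 (hs x).2.2, ?_⟩
    exact hA x hx y hy
  have h1 := G.card_le A hanti
  obtain ⟨a2, -⟩ := G.betti_finite (ZMod 2)
  obtain ⟨aR, -⟩ := G.betti_finite ℝ
  have hvan : ∀ n, d + 1 ≤ n → finrank (ZMod 2) (SingCoh (ZMod 2) M n) = 0 := by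
    intro n hn
    obtain ⟨m, rfl⟩ : ∃ m, n = m + 1 := ⟨n - 1, by omega⟩
    rcases Nat.eq_zero_or_pos m with rfl | hm
    · have hd : d = 0 := by omega
      subst hd
      have := subsingleton_of_zero (M := M)
      exact finrank_point
    · exact finrank_above (M := M) d m (by omega) hm
  rw [totalBetti_eq (d + 1) a2 hvan, Nat.cast_le] at h1
  refine h1.trans (Finset.sum_le_sum fun n _ => ?_)
  obtain ⟨b1, b2⟩ := finrank_Hm (ZMod 2) M n (a2 n)
  obtain ⟨c1, c2⟩ := finrank_Hm ℝ M n (aR n)
  obtain ⟨e1, e2⟩ := betti_le (X := M) n hZ c1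
  rw [← b2]
  exact e2

end Pool.Agent.X178.Nag
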