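import Pool.Agent.Helper381.Energy

/-! Joint estimates for the discrete energy: both ends move. -/

set_option autoImplicit false

namespace Pool.Agent.X178.Nag

open Pool.Agent.Helper381 Metric Set

variable {E : Type*} [NormedAddCommGroup E] [NormedSpace ℝ E] (g : MetCoef E)

/-- joint second difference of the energy -/
theorem energy_joint {ρ A D : ℝ} (hρ : ρ ≤ g.r) (hA : 0 ≤ A) {n : ℕ} (hn : 0 < n)
    (a b : ℕ → E) (ha : ∀ i ≤ n, a i ∈ ball g.x₀ ρ) (hb : ∀ i ≤ n, b i ∈ ball g.x₀ ρ)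
    (ha' : ∀ i < n, ‖a (i + 1) - a i‖ ≤ A / n) (hb' : ∀ i < n, ‖b (i + 1) - b i‖ ≤ A / n)
    (hD : ∀ i < n, ‖a i - b i‖ ≤ D) (η : ℕ → E)
    (hη : ∀ i, η i = (b (i + 1) - a (i + 1)) - (b i - a i)) :
    |(g.energy n a + g.energy n b) / 2 - g.energy n (fun i => (1 / 2 : ℝ) • (a i + b i)) -
      1 / 4 * (n * ∑ i ∈ Finset.range n, g.G g.x₀ (η i) (η i))| ≤
      g.C * D ^ 2 * A ^ 2 + g.C / 2 * D * A * (∑ i ∈ Finset.range n, ‖η i‖) +
        g.C * ρ / 4 * (n * ∑ i ∈ Finset.range n, ‖η i‖ ^ 2) := by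
  have hn' : (0 : ℝ) < n := by exact_mod_cast hn
  have hC := g.Cpos
  let β : ℕ → E := fun i => (1 / 2 : ℝ) • (a (i + 1) + b (i + 1)) - (1 / 2 : ℝ) • (a i + b i)
  have e1 : ∀ i, β i - (1 / 2 : ℝ) • η i = a (i + 1) - a i := by
    intro i; simp only [β, hη]; module
  have e2 : ∀ i, β i + (1 / 2 : ℝ) • η i = b (i + 1) - b i := by
    intro i; simp only [β, hη]; module
  have hβ : ∀ i < n, ‖β i‖ ≤ A / n := by
    intro i hi
    have : β i = (1 / 2 : ℝ) • ((a (i + 1) - a i) + (b (i + 1) - b i)) := by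
      simp only [β]; module
    rw [this, norm_smul]
    have h1 := norm_add_le (a (i + 1) - a i) (b (i + 1) - b i)
    have h2 := ha' i hi
    have h3 := hb' i hi
    have : ‖(1 / 2 : ℝ)‖ = 1 / 2 := by norm_num
    rw [this]
    linarith
  set T : ℕ → ℝ := fun i => (g.G (a i) (a (i + 1) - a i) (a (i + 1) - a i) +
        g.G (b i) (b (i + 1) - b i) (b (i + 1) - b i)) / 2 -
        g.G ((1 / 2 : ℝ) • (a i + b i)) (β i) (β i) - 1 / 4 * g.G g.x₀ (η i) (η i) with hT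
  have hstep : ∀ i ∈ Finset.range n, |T i| ≤ g.C * D ^ 2 * (A / n) ^ 2 +
      g.C / 2 * D * (A / n) * ‖η i‖ + g.C * ρ / 4 * ‖η i‖ ^ 2 := by
    intro i hi
    rw [Finset.mem_range] at hi
    have h0 := g.step hρ (ha i hi.le) (hb i hi.le) (β i) (η i)
    rw [e1, e2] at h0
    refine h0.trans ?_
    have h1 := hβ i hi
    have h2 := hD i hi
    have h3 : 0 ≤ D := (norm_nonneg _).trans h2
    gcongr
  have hsum : |∑ i ∈ Finset.range n, T i| ≤ ∑ i ∈ Finset.range n,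
      (g.C * D ^ 2 * (A / n) ^ 2 + g.C / 2 * D * (A / n) * ‖η i‖ + g.C * ρ / 4 * ‖η i‖ ^ 2) :=
    (Finset.abs_sum_le_sum_abs _ _).trans (Finset.sum_le_sum hstep)
  have hL : (g.energy n a + g.energy n b) / 2 -
      g.energy n (fun i => (1 / 2 : ℝ) • (a i + b i)) -
      1 / 4 * (n * ∑ i ∈ Finset.range n, g.G g.x₀ (η i) (η i)) =
      n * ∑ i ∈ Finset.range n, T i := by
    have hE : g.energy n (fun i => (1 / 2 : ℝ) • (a i + b i)) =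
        n * ∑ i ∈ Finset.range n, g.G ((1 / 2 : ℝ) • (a i + b i)) (β i) (β i) := rfl
    have hEa : g.energy n a = n * ∑ i ∈ Finset.range n,
        g.G (a i) (a (i + 1) - a i) (a (i + 1) - a i) := rfl
    have hEb : g.energy n b = n * ∑ i ∈ Finset.range n,
        g.G (b i) (b (i + 1) - b i) (b (i + 1) - b i) := rfl
    rw [hE, hEa, hEb]
    simp only [hT, Finset.sum_sub_distrib, ← Finset.sum_div, Finset.sum_add_distrib,
      ← Finset.mul_sum]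
    ring
  rw [hL, abs_mul, abs_of_pos hn']
  have hR : g.C * D ^ 2 * A ^ 2 + g.C / 2 * D * A * (∑ i ∈ Finset.range n, ‖η i‖) +
        g.C * ρ / 4 * (n * ∑ i ∈ Finset.range n, ‖η i‖ ^ 2) = n * ∑ i ∈ Finset.range n,
      (g.C * D ^ 2 * (A / n) ^ 2 + g.C / 2 * D * (A / n) * ‖η i‖ + g.C * ρ / 4 * ‖η i‖ ^ 2) := by
    simp only [Finset.sum_add_distrib, ← Finset.mul_sum, Finset.sum_const, Finset.card_range,
      nsmul_eq_mul]
    field_simp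
  rw [hR]
  exact mul_le_mul_of_nonneg_left hsum hn'.le

/-- error constant -/
noncomputable def Kc : ℝ := 6 * g.C ^ 2 / g.lam + 4 * g.C

theorem Kc_pos : 0 < Kc g := by
  have := g.Cpos
  have := g.lampos
  unfold Kc; positivity

/-- joint strong convexity of the discrete energy -/
theorem energy_sc_joint {ρ : ℝ} (hρ : ρ ≤ g.r) (hρ0 : 0 ≤ ρ) (hρ1 : ρ ≤ 1)
    (hsm : 12 * g.C * ρ ≤ g.lam) {n : ℕ} (hn : 0 < n)
    (a b : ℕ → E) (ha : ∀ i ≤ n, a i ∈ ball g.x₀ ρ) (hb : ∀ i ≤ n, b i ∈ ball g.x₀ ρ)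
    (ha' : ∀ i < n, ‖a (i + 1) - a i‖ ≤ ρ / n) (hb' : ∀ i < n, ‖b (i + 1) - b i‖ ≤ ρ / n) :
    g.energy n (fun i => (1 / 2 : ℝ) • (a i + b i)) ≤ (g.energy n a + g.energy n b) / 2 -
      1 / 4 * g.G g.x₀ ((b n - a n) - (b 0 - a 0)) ((b n - a n) - (b 0 - a 0)) +
      Kc g * ρ * (‖b 0 - a 0‖ ^ 2 + ‖b n - a n‖ ^ 2) := by
  have hn' : (0 : ℝ) < n := by exact_mod_cast hn
  have hC := g.Cpos
  have hl := g.lampos
  have h00 : g.x₀ ∈ ball g.x₀ g.r := mem_ball_self g.rpos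
  set δ : ℕ → E := fun i => b i - a i with hδdef
  set η : ℕ → E := fun i => δ (i + 1) - δ i with hηdef
  set S := ∑ j ∈ Finset.range n, ‖η j‖ with hS
  set H := (n : ℝ) * ∑ j ∈ Finset.range n, ‖η j‖ ^ 2 with hH
  set X := (n : ℝ) * ∑ j ∈ Finset.range n, g.G g.x₀ (η j) (η j) with hX
  have hS0 : 0 ≤ S := Finset.sum_nonneg fun _ _ => norm_nonneg _
  have hH0 : 0 ≤ H := by positivity
  have hSH : S ^ 2 ≤ H := sq_sum_le n _
  have hδ : ∀ i, δ i = δ 0 + ∑ j ∈ Finset.range i, η j := by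
    intro i
    rw [Finset.sum_range_sub]
    abel
  have hD : ∀ i < n, ‖a i - b i‖ ≤ ‖δ 0‖ + S := by
    intro i hi
    have h1 : ‖a i - b i‖ = ‖δ i‖ := by simp only [δ]; rw [norm_sub_rev]
    rw [h1, hδ]
    refine (norm_add_le _ _).trans ?_
    gcongr
    refine (norm_sum_le _ _).trans ?_
    exact Finset.sum_le_sum_of_subset_of_nonneg (Finset.range_mono hi.le)
      (fun _ _ _ => norm_nonneg _)
  have key := energy_joint g hρ hρ0 hn a b ha hb ha' hb' hD η (fun i => rfl)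
  have hXH : g.lam * H ≤ X := by
    have : g.lam * H = n * ∑ i ∈ Finset.range n, g.lam * ‖η i‖ ^ 2 := by
      rw [← Finset.mul_sum]; ring
    rw [this]
    apply mul_le_mul_of_nonneg_left _ hn'.le
    exact Finset.sum_le_sum fun i _ => g.lower _ h00 _
  have hQ := form_sum_le (g.G g.x₀) (g.symm _ h00) (g.nonneg h00) n η
  have hsumη : ∑ j ∈ Finset.range n, η j = δ n - δ 0 := by
    rw [Finset.sum_range_sub]
  rw [hsumη] at hQ
  have hQX : g.G g.x₀ (δ n - δ 0) (δ n - δ 0) ≤ X := hQ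
  have hQup := g.upper g.x₀ h00 (δ n - δ 0)
  set Q := g.G g.x₀ (δ n - δ 0) (δ n - δ 0) with hQdef
  have hΔ : ‖δ n - δ 0‖ ^ 2 ≤ 2 * ‖δ 0‖ ^ 2 + 2 * ‖δ n‖ ^ 2 := by
    have h1 := norm_sub_le (δ n) (δ 0)
    have h2 : ‖δ n - δ 0‖ ^ 2 ≤ (‖δ n‖ + ‖δ 0‖) ^ 2 :=
      pow_le_pow_left₀ (norm_nonneg _) h1 2
    nlinarith [sq_nonneg (‖δ n‖ - ‖δ 0‖)]
  -- the error term
  set e0 := ‖δ 0‖ with he0
  have he00 : 0 ≤ e0 := norm_nonneg _
  have herr : g.C * (e0 + S) ^ 2 * ρ ^ 2 + g.C / 2 * (e0 + S) * ρ * S + g.C * ρ / 4 * H ≤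
      3 * g.C * ρ * (e0 ^ 2 + H) := by
    have h1 : (e0 + S) ^ 2 ≤ 2 * e0 ^ 2 + 2 * H := by nlinarith [sq_nonneg (e0 - S)]
    have h2 : (e0 + S) * S ≤ 1 / 2 * e0 ^ 2 + 3 / 2 * H := by nlinarith [sq_nonneg (e0 - S)]
    have h3 : ρ ^ 2 ≤ ρ := by nlinarith
    have h4 : g.C * (e0 + S) ^ 2 * ρ ^ 2 ≤ g.C * (2 * e0 ^ 2 + 2 * H) * ρ := by gcongr
    have h5 : g.C / 2 * (e0 + S) * ρ * S ≤ g.C / 2 * ρ * (1 / 2 * e0 ^ 2 + 3 / 2 * H) := by
      have : g.C / 2 * (e0 + S) * ρ * S = g.C / 2 * ρ * ((e0 + S) * S) := by ring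
      rw [this]
      gcongr
    have h6 : 0 ≤ g.C * ρ * e0 ^ 2 := by positivity
    nlinarith
  rw [abs_le] at key
  have k1 := key.1
  -- combine
  have hP : 3 * g.C * ρ * H ≤ 3 * g.C * ρ / g.lam * X := by
    have : 3 * g.C * ρ * H = 3 * g.C * ρ / g.lam * (g.lam * H) := by field_simp
    rw [this]
    gcongr
  have hfac : 0 ≤ 1 / 4 - 3 * g.C * ρ / g.lam := by
    have : 3 * g.C * ρ / g.lam ≤ 1 / 4 := by
      rw [div_le_iff₀ hl]; linarith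
    linarith
  have hXQ : (1 / 4 - 3 * g.C * ρ / g.lam) * Q ≤ (1 / 4 - 3 * g.C * ρ / g.lam) * X := by gcongr
  have hQ2 : 3 * g.C * ρ / g.lam * Q ≤ 3 * g.C * ρ / g.lam * (g.C * (2 * e0 ^ 2 + 2 * ‖δ n‖ ^ 2)) := by
    gcongr
    exact hQup.trans (by gcongr)
  have hfin : 3 * g.C * ρ / g.lam * (g.C * (2 * e0 ^ 2 + 2 * ‖δ n‖ ^ 2)) + 3 * g.C * ρ * e0 ^ 2 ≤
      Kc g * ρ * (e0 ^ 2 + ‖δ n‖ ^ 2) := by
    have h1 : Kc g * ρ * (e0 ^ 2 + ‖δ n‖ ^ 2) =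
      3 * g.C * ρ / g.lam * (g.C * (2 * e0 ^ 2 + 2 * ‖δ n‖ ^ 2)) +
        4 * g.C * ρ * (e0 ^ 2 + ‖δ n‖ ^ 2) := by
      unfold Kc; field_simp; ring
    rw [h1]
    have h2 : 0 ≤ g.C * ρ * e0 ^ 2 := by positivity
    have h3 : 0 ≤ g.C * ρ * ‖δ n‖ ^ 2 := by positivity
    nlinarith
  linarith

/-- joint semiconcavity of the discrete energy -/
theorem energy_scc_joint {ρ : ℝ} (hρ : ρ ≤ g.r) (hρ0 : 0 ≤ ρ) (hρ1 : ρ ≤ 1) {n : ℕ} (hn : 0 < n)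
    (m e : ℕ → E) (e0 e1 : E) (he : ∀ i, e i = e0 + ((i : ℝ) / n) • (e1 - e0))
    (ha : ∀ i ≤ n, m i + e i ∈ ball g.x₀ ρ)
    (hb : ∀ i ≤ n, m i - e i ∈ ball g.x₀ ρ)
    (hap : ∀ i < n, ‖(m (i + 1) + e (i + 1)) - (m i + e i)‖ ≤ ρ / n)
    (hbp : ∀ i < n, ‖(m (i + 1) - e (i + 1)) - (m i - e i)‖ ≤ ρ / n) :
    (g.energy n (fun i => m i + e i) + g.energy n (fun i => m i - e i)) / 2 ≤
      g.energy n m + g.G g.x₀ (e1 - e0) (e1 - e0) +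
      Kc g * ρ * (4 * ‖e0‖ ^ 2 + 4 * ‖e1‖ ^ 2) := by
  have hn' : (0 : ℝ) < n := by exact_mod_cast hn
  have hC := g.Cpos
  have hl := g.lampos
  set η : ℕ → E := fun _ => -((2 : ℝ) / n) • (e1 - e0) with hηdef
  have hη : ∀ i, η i = ((m (i + 1) - e (i + 1)) - (m (i + 1) + e (i + 1))) -
      ((m i - e i) - (m i + e i)) := by
    intro i
    simp only [hηdef, he]
    push_cast
    have : (((i : ℝ) + 1) / n) = (i : ℝ) / n + 1 / n := by ring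
    rw [this]
    module
  set D := 2 * (‖e0‖ + ‖e1‖) with hDdef
  have hD : ∀ i < n, ‖(m i + e i) - (m i - e i)‖ ≤ D := by
    intro i hi
    have h1 : (m i + e i) - (m i - e i) = (2 : ℝ) • ((1 - (i : ℝ) / n) • e0 + ((i : ℝ) / n) • e1) := by
      rw [he]; module
    have h2 : 0 ≤ (i : ℝ) / n := by positivity
    have h3 : (i : ℝ) / n ≤ 1 := by rw [div_le_one hn']; exact_mod_cast hi.le
    rw [h1, norm_smul]
    have h4 : ‖(1 - (i : ℝ) / n) • e0 + ((i : ℝ) / n) • e1‖ ≤ ‖e0‖ + ‖e1‖ := by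
      refine (norm_add_le _ _).trans ?_
      rw [norm_smul, norm_smul, Real.norm_of_nonneg h2, Real.norm_of_nonneg (by linarith)]
      have := norm_nonneg e0
      have := norm_nonneg e1
      nlinarith
    have h5 : ‖(2 : ℝ)‖ = 2 := by norm_num
    rw [h5]
    linarith
  have key := energy_joint g hρ hρ0 hn (fun i => m i + e i) (fun i => m i - e i) ha hb hap hbp hD
    η hη
  have e0' : (fun i => (1 / 2 : ℝ) • ((m i + e i) + (m i - e i))) = m := by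
    funext i; module
  rw [e0'] at key
  have hηn : ∀ i, ‖η i‖ = 2 / n * ‖e1 - e0‖ := by
    intro i
    simp only [hηdef]
    rw [norm_smul, norm_neg, Real.norm_of_nonneg (by positivity)]
  have hS : ∑ i ∈ Finset.range n, ‖η i‖ = 2 * ‖e1 - e0‖ := by
    simp only [hηn]
    rw [Finset.sum_const, Finset.card_range, nsmul_eq_mul]
    field_simp
  have hH : (n : ℝ) * ∑ i ∈ Finset.range n, ‖η i‖ ^ 2 = 4 * ‖e1 - e0‖ ^ 2 := by
    simp only [hηn]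
    rw [Finset.sum_const, Finset.card_range, nsmul_eq_mul]
    field_simp
    ring
  have hG : (n : ℝ) * ∑ i ∈ Finset.range n, g.G g.x₀ (η i) (η i) =
      4 * g.G g.x₀ (e1 - e0) (e1 - e0) := by
    simp only [hηdef]
    rw [Finset.sum_const, Finset.card_range, nsmul_eq_mul]
    simp only [map_smul, LinearMap.smul_apply, smul_eq_mul]
    field_simp
    ring
  rw [hS, hH, hG] at key
  have hd : ‖e1 - e0‖ ≤ ‖e0‖ + ‖e1‖ := by
    have := norm_sub_le e1 e0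
    linarith
  set s := ‖e0‖ + ‖e1‖ with hs
  have hs0 : 0 ≤ s := by positivity
  have hs2 : s ^ 2 ≤ 2 * ‖e0‖ ^ 2 + 2 * ‖e1‖ ^ 2 := by
    nlinarith [sq_nonneg (‖e0‖ - ‖e1‖)]
  have herr : g.C * D ^ 2 * ρ ^ 2 + g.C / 2 * D * ρ * (2 * ‖e1 - e0‖) +
      g.C * ρ / 4 * (4 * ‖e1 - e0‖ ^ 2) ≤ 7 * g.C * ρ * s ^ 2 := by
    have h3 : ρ ^ 2 ≤ ρ := by nlinarith
    have h4 : g.C * D ^ 2 * ρ ^ 2 ≤ g.C * D ^ 2 * ρ := by gcongr
    have h5 : g.C / 2 * D * ρ * (2 * ‖e1 - e0‖) ≤ g.C / 2 * D * ρ * (2 * s) := by gcongr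
    have h6 : g.C * ρ / 4 * (4 * ‖e1 - e0‖ ^ 2) ≤ g.C * ρ / 4 * (4 * s ^ 2) := by gcongr
    have h7 : D = 2 * s := rfl
    rw [h7] at h4 h5 ⊢
    nlinarith
  have hfin : 7 * g.C * ρ * s ^ 2 ≤ Kc g * ρ * (4 * ‖e0‖ ^ 2 + 4 * ‖e1‖ ^ 2) := by
    have h1 : 4 * g.C ≤ Kc g := by
      unfold Kc
      have : 0 ≤ 6 * g.C ^ 2 / g.lam := by positivity
      linarith
    calc 7 * g.C * ρ * s ^ 2 ≤ 7 * g.C * ρ * (2 * ‖e0‖ ^ 2 + 2 * ‖e1‖ ^ 2) := by gcongr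
      _ ≤ (4 * g.C) * ρ * (4 * ‖e0‖ ^ 2 + 4 * ‖e1‖ ^ 2) := by
          have h2 : 0 ≤ g.C * ρ * (‖e0‖ ^ 2 + ‖e1‖ ^ 2) := by positivity
          nlinarith
      _ ≤ _ := by gcongr
  rw [abs_le] at key
  have k2 := key.2
  linarith

end Pool.Agent.X178.Nag
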