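import Pool.Agent.X178.Nag.EnergyJ
import Pool.Agent.Helper381.Loc

/-! Joint second differences of the squared distance in a chart. -/

set_option autoImplicit false

namespace Pool.Agent.X178.Nag

open Pool.Agent.Helper381 Metric Set

variable {M : Type*} {E : Type*} [MetricSpace M] [NormedAddCommGroup E] [NormedSpace ℝ E]
  (c : Loc M E)

theorem sc_joint
    (hmid : ∀ x y : M, ∃ m : M, dist x m = dist x y / 2 ∧ dist m y = dist x y / 2)
    {ρ : ℝ} (hρ0 : 0 < ρ) (hρ1 : ρ ≤ c.r₁) (hρτ : ρ < c.τ) (hρ11 : ρ ≤ 1)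
    (hsmall : 12 * c.C * ρ ≤ c.lam) {z z' u v : E}
    (hz : z ∈ ball c.x₀ (ρ / (2 + 2 * c.L ^ 2))) (hz' : z' ∈ ball c.x₀ (ρ / (2 + 2 * c.L ^ 2)))
    (hu : u ∈ ball c.x₀ (ρ / (2 + 2 * c.L ^ 2)))
    (hv : v ∈ ball c.x₀ (ρ / (2 + 2 * c.L ^ 2))) :
    dist (c.ψ ((1 / 2 : ℝ) • (z + z'))) (c.ψ ((1 / 2 : ℝ) • (u + v))) ^ 2 ≤
      (dist (c.ψ z) (c.ψ u) ^ 2 + dist (c.ψ z') (c.ψ v) ^ 2) / 2 -
        1 / 4 * c.G c.x₀ ((v - u) - (z' - z)) ((v - u) - (z' - z)) +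
        Kc c.toMetCoef * ρ * (‖z' - z‖ ^ 2 + ‖v - u‖ ^ 2) := by
  have hL := c.one_le_L
  set ρ₀ := ρ / (2 + 2 * c.L ^ 2) with hρ₀
  have hρρ : ρ = ρ₀ * (2 + 2 * c.L ^ 2) := by rw [hρ₀]; field_simp
  have hρ₀pos : 0 < ρ₀ := by positivity
  have hA : 2 * c.L ^ 2 * ρ₀ ≤ ρ := by rw [hρρ]; nlinarith
  have hB : (1 + 2 * c.L ^ 2) * ρ₀ ≤ ρ := by rw [hρρ]; nlinarith
  have hr1r : ρ ≤ c.r := hρ1.trans (by linarith [c.r₁_lt, c.r₁pos])
  apply Loc.le_of_forall_pow (K := 2 * (c.C₃ * ρ ^ 3))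
  intro k
  obtain ⟨a, a0, a1, hab, had, hadist⟩ := c.chain_in_chart hmid hρ1 hρτ hz hu k
  obtain ⟨b, b0, b1, hbb, hbd, hbdist⟩ := c.chain_in_chart hmid hρ1 hρτ hz' hv k
  set n := 2 ^ k with hn
  have hnpos : 0 < n := by positivity
  have hn' : (0 : ℝ) < n := by exact_mod_cast hnpos
  have hab' : ∀ i ≤ n, a i ∈ ball c.x₀ ρ := fun i hi => ball_subset_ball hB (hab i hi)
  have hbb' : ∀ i ≤ n, b i ∈ ball c.x₀ ρ := fun i hi => ball_subset_ball hB (hbb i hi)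
  have hab1 : ∀ i ≤ n, a i ∈ ball c.x₀ c.r₁ := fun i hi => ball_subset_ball hρ1 (hab' i hi)
  have hbb1 : ∀ i ≤ n, b i ∈ ball c.x₀ c.r₁ := fun i hi => ball_subset_ball hρ1 (hbb' i hi)
  have had' : ∀ i < n, ‖a (i + 1) - a i‖ ≤ ρ / n := fun i hi => (had i hi).trans (by gcongr)
  have hbd' : ∀ i < n, ‖b (i + 1) - b i‖ ≤ ρ / n := fun i hi => (hbd i hi).trans (by gcongr)
  have e1 := energy_sc_joint c.toMetCoef hr1r hρ0.le hρ11 hsmall hnpos a b hab' hbb' had' hbd'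
  have e2 := c.energy_le hnpos a hab1 had' hadist
  have e3 := c.energy_le hnpos b hbb1 hbd' hbdist
  have e4 := c.dist_sq_le_energy (B := ρ) hnpos (fun i => (1 / 2 : ℝ) • (a i + b i))
    (fun i hi => Loc.half_mem_ball (hab1 i hi) (hbb1 i hi)) (by
      intro i hi
      have : (1 / 2 : ℝ) • (a (i + 1) + b (i + 1)) - (1 / 2 : ℝ) • (a i + b i) =
        (1 / 2 : ℝ) • ((a (i + 1) - a i) + (b (i + 1) - b i)) := by module
      rw [this, norm_smul]
      have h1 := norm_add_le (a (i + 1) - a i) (b (i + 1) - b i)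
      have h2 := had' i hi
      have h3 := hbd' i hi
      have : ‖(1 / 2 : ℝ)‖ = 1 / 2 := by norm_num
      rw [this]
      linarith)
  simp only [a0, b0, a1, b1] at e4 e1
  have e6 : 2 * (c.C₃ * ρ ^ 3) / (n : ℝ) = 2 * (c.C₃ * ρ ^ 3 / n) := by ring
  rw [e6]
  linarith

theorem scc_joint
    (hmid : ∀ x y : M, ∃ m : M, dist x m = dist x y / 2 ∧ dist m y = dist x y / 2)
    {ρ : ℝ} (hρ0 : 0 < ρ) (hρ1 : ρ ≤ c.r₁) (hρτ : ρ < c.τ) (hρ11 : ρ ≤ 1) {z z' u v : E}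
    (hz : z ∈ ball c.x₀ (ρ / (2 + 2 * c.L ^ 2))) (hz' : z' ∈ ball c.x₀ (ρ / (2 + 2 * c.L ^ 2)))
    (hu : u ∈ ball c.x₀ (ρ / (2 + 2 * c.L ^ 2)))
    (hv : v ∈ ball c.x₀ (ρ / (2 + 2 * c.L ^ 2))) :
    (dist (c.ψ z) (c.ψ u) ^ 2 + dist (c.ψ z') (c.ψ v) ^ 2) / 2 ≤
    dist (c.ψ ((1 / 2 : ℝ) • (z + z'))) (c.ψ ((1 / 2 : ℝ) • (u + v))) ^ 2 +
        1 / 4 * c.G c.x₀ ((v - u) - (z' - z)) ((v - u) - (z' - z)) +
        Kc c.toMetCoef * ρ * (‖z' - z‖ ^ 2 + ‖v - u‖ ^ 2) := by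
  have hL := c.one_le_L
  set ρ₀ := ρ / (2 + 2 * c.L ^ 2) with hρ₀
  have hρρ : ρ = ρ₀ * (2 + 2 * c.L ^ 2) := by rw [hρ₀]; field_simp
  have hρ₀pos : 0 < ρ₀ := by positivity
  have hA : 2 * c.L ^ 2 * ρ₀ ≤ ρ := by rw [hρρ]; nlinarith
  have hB : (1 + 2 * c.L ^ 2) * ρ₀ ≤ ρ := by rw [hρρ]; nlinarith
  have hr1r : ρ ≤ c.r := hρ1.trans (by linarith [c.r₁_lt, c.r₁pos])
  set f0 : E := (1 / 2 : ℝ) • (z - z') with hf0
  set f1 : E := (1 / 2 : ℝ) • (u - v) with hf1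
  have hhalf : ‖(1 / 2 : ℝ)‖ = 1 / 2 := by norm_num
  have hen0 : ‖f0‖ ≤ ρ₀ := by
    have h1 := dist_triangle_right z z' c.x₀
    rw [mem_ball] at hz hz'
    rw [hf0, norm_smul, ← dist_eq_norm, hhalf]
    linarith
  have hen1 : ‖f1‖ ≤ ρ₀ := by
    have h1 := dist_triangle_right u v c.x₀
    rw [mem_ball] at hu hv
    rw [hf1, norm_smul, ← dist_eq_norm, hhalf]
    linarith
  have hm0 := Loc.half_mem_ball hz hz'
  have hm1 := Loc.half_mem_ball hu hv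
  have hQe : 1 / 4 * c.G c.x₀ ((v - u) - (z' - z)) ((v - u) - (z' - z)) =
      c.G c.x₀ (f1 - f0) (f1 - f0) := by
    have : (v - u) - (z' - z) = (-2 : ℝ) • (f1 - f0) := by rw [hf0, hf1]; module
    rw [this]
    simp only [map_smul, LinearMap.smul_apply, smul_eq_mul]
    ring
  have hN0 : ‖z' - z‖ ^ 2 = 4 * ‖f0‖ ^ 2 := by
    rw [hf0, norm_smul, hhalf, norm_sub_rev]; ring
  have hN1 : ‖v - u‖ ^ 2 = 4 * ‖f1‖ ^ 2 := by
    rw [hf1, norm_smul, hhalf, norm_sub_rev]; ring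
  rw [hQe, hN0, hN1]
  apply Loc.le_of_forall_pow (K := 2 * (c.C₃ * ρ ^ 3))
  intro k
  obtain ⟨m, m0, m1, hmb, hmd, hmdist⟩ := c.chain_in_chart hmid hρ1 hρτ hm0 hm1 k
  set n := 2 ^ k with hn
  have hnpos : 0 < n := by positivity
  have hn' : (0 : ℝ) < n := by exact_mod_cast hnpos
  set e : ℕ → E := fun i => f0 + ((i : ℝ) / n) • (f1 - f0) with he
  have hen : ∀ i ≤ n, ‖e i‖ ≤ ρ₀ := by
    intro i hi
    have h1 : e i = (1 - (i : ℝ) / n) • f0 + ((i : ℝ) / n) • f1 := by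
      simp only [he]; module
    have h2 : 0 ≤ (i : ℝ) / n := by positivity
    have h3 : (i : ℝ) / n ≤ 1 := by rw [div_le_one hn']; exact_mod_cast hi
    rw [h1]
    refine (norm_add_le _ _).trans ?_
    rw [norm_smul (1 - (i : ℝ) / n) f0, norm_smul ((i : ℝ) / n) f1, Real.norm_of_nonneg h2,
      Real.norm_of_nonneg (by linarith)]
    nlinarith
  have hmr : ∀ i ≤ n, m i ∈ ball c.x₀ ρ := fun i hi => ball_subset_ball hB (hmb i hi)
  have hap : ∀ i ≤ n, m i + e i ∈ ball c.x₀ ρ := by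
    intro i hi
    have h1 := hmb i hi
    rw [mem_ball, dist_eq_norm] at h1 ⊢
    have h2 : m i + e i - c.x₀ = (m i - c.x₀) + e i := by abel
    rw [h2]
    have h3 := norm_add_le (m i - c.x₀) (e i)
    have h4 := hen i hi
    rw [hρρ]; nlinarith
  have ham : ∀ i ≤ n, m i - e i ∈ ball c.x₀ ρ := by
    intro i hi
    have h1 := hmb i hi
    rw [mem_ball, dist_eq_norm] at h1 ⊢
    have h2 : m i - e i - c.x₀ = (m i - c.x₀) - e i := by abel
    rw [h2]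
    have h3 := norm_sub_le (m i - c.x₀) (e i)
    have h4 := hen i hi
    rw [hρρ]; nlinarith
  have hstep : ∀ i, e (i + 1) - e i = ((1 : ℝ) / n) • (f1 - f0) := by
    intro i
    simp only [he]
    push_cast
    have : (((i : ℝ) + 1) / n) = (i : ℝ) / n + 1 / n := by ring
    rw [this]
    module
  have hstepn : ‖((1 : ℝ) / n) • (f1 - f0)‖ ≤ 2 * ρ₀ / n := by
    rw [norm_smul, Real.norm_of_nonneg (by positivity)]
    have h1 := norm_sub_le f1 f0
    have : 2 * ρ₀ / n = 1 / n * (2 * ρ₀) := by ring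
    rw [this]
    gcongr
    linarith
  have hmd' : ∀ i < n, ‖m (i + 1) - m i‖ ≤ ρ / n := fun i hi => (hmd i hi).trans (by gcongr)
  have hsumle : 2 * c.L ^ 2 * ρ₀ / n + 2 * ρ₀ / n ≤ ρ / n := by
    rw [← add_div]
    gcongr
    rw [hρρ]; nlinarith
  have hpd : ∀ i < n, ‖(m (i + 1) + e (i + 1)) - (m i + e i)‖ ≤ ρ / n := by
    intro i hi
    have : (m (i + 1) + e (i + 1)) - (m i + e i) =
      (m (i + 1) - m i) + (e (i + 1) - e i) := by abel
    rw [this, hstep]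
    refine (norm_add_le _ _).trans ?_
    have h1 := hmd i hi
    linarith
  have hqd : ∀ i < n, ‖(m (i + 1) - e (i + 1)) - (m i - e i)‖ ≤ ρ / n := by
    intro i hi
    have : (m (i + 1) - e (i + 1)) - (m i - e i) =
      (m (i + 1) - m i) - (e (i + 1) - e i) := by abel
    rw [this, hstep]
    refine (norm_sub_le _ _).trans ?_
    have h1 := hmd i hi
    linarith
  have e1 := energy_scc_joint c.toMetCoef hr1r hρ0.le hρ11 hnpos m e f0 f1 (fun i => rfl)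
    hap ham hpd hqd
  have e2 := c.energy_le hnpos m (fun i hi => ball_subset_ball hρ1 (hmr i hi)) hmd' hmdist
  have e3 := c.dist_sq_le_energy (B := ρ) hnpos (fun i => m i + e i)
    (fun i hi => ball_subset_ball hρ1 (hap i hi)) hpd
  have e4 := c.dist_sq_le_energy (B := ρ) hnpos (fun i => m i - e i)
    (fun i hi => ball_subset_ball hρ1 (ham i hi)) hqd
  have hnn : (n : ℝ) / n = 1 := div_self hn'.ne'
  have g0 : e 0 = f0 := by simp [he]
  have g1 : e n = f1 := by simp only [he, hnn]; module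
  simp only [m0, m1, g0, g1] at e3 e4
  have h1 : (1 / 2 : ℝ) • (u + v) + f1 = u := by rw [hf1]; module
  have h2 : (1 / 2 : ℝ) • (u + v) - f1 = v := by rw [hf1]; module
  have h3 : (1 / 2 : ℝ) • (z + z') + f0 = z := by rw [hf0]; module
  have h4 : (1 / 2 : ℝ) • (z + z') - f0 = z' := by rw [hf0]; module
  rw [h1, h3] at e3
  rw [h2, h4] at e4
  have e6 : 2 * (c.C₃ * ρ ^ 3) / (n : ℝ) = 2 * (c.C₃ * ρ ^ 3 / n) := by ring
  rw [e6]
  linarith

/-- radius below which the joint estimates hold -/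
theorem exists_rho_joint : ∃ ρ : ℝ, 0 < ρ ∧ ρ ≤ c.r₁ ∧ ρ < c.τ ∧ ρ ≤ 1 ∧
    12 * c.C * ρ ≤ c.lam := by
  have h1 := c.r₁pos
  have h2 := c.τpos
  have h3 := c.lampos
  have h4 := c.Cpos
  refine ⟨min c.r₁ (min (c.τ / 2) (min 1 (c.lam / (12 * c.C)))), ?_, min_le_left _ _, ?_, ?_, ?_⟩
  · apply lt_min h1 (lt_min (by linarith) (lt_min one_pos (by positivity)))
  · refine lt_of_le_of_lt ((min_le_right _ _).trans (min_le_left _ _)) (by linarith)
  · exact (min_le_right _ _).trans ((min_le_right _ _).trans (min_le_left _ _))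
  · have : min c.r₁ (min (c.τ / 2) (min 1 (c.lam / (12 * c.C)))) ≤ c.lam / (12 * c.C) :=
      (min_le_right _ _).trans ((min_le_right _ _).trans (min_le_right _ _))
    rw [le_div_iff₀ (by positivity)] at this
    linarith

/-- the deviation of the squared distance from the quadratic form at the centre -/
noncomputable def hdev (p : E × E) : ℝ :=
  dist (c.ψ p.1) (c.ψ p.2) ^ 2 - c.G c.x₀ (p.2 - p.1) (p.2 - p.1)

/-- summary: second differences of `hdev` are `O(s)` on the ball of radius `s` -/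
theorem hdev_second
    (hmid : ∀ x y : M, ∃ m : M, dist x m = dist x y / 2 ∧ dist m y = dist x y / 2) :
    ∃ s₀ K : ℝ, 0 < s₀ ∧ s₀ ≤ 1 ∧ s₀ ≤ c.r₁ ∧ 0 < K ∧ ∀ s, 0 < s → s ≤ s₀ →
      ∀ z ∈ ball c.x₀ s, ∀ z' ∈ ball c.x₀ s, ∀ u ∈ ball c.x₀ s, ∀ v ∈ ball c.x₀ s,
      |hdev c (z, u) + hdev c (z', v) -
        2 * hdev c ((1 / 2 : ℝ) • (z + z'), (1 / 2 : ℝ) • (u + v))| ≤
        K * s * (‖z' - z‖ ^ 2 + ‖v - u‖ ^ 2) := by
  obtain ⟨ρ, h0, h1, h2, h3, h4⟩ := exists_rho_joint c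
  have hL := c.one_le_L
  set N := 2 + 2 * c.L ^ 2 with hN
  have hN1 : 1 ≤ N := by rw [hN]; nlinarith
  have hN0 : 0 < N := by linarith
  have hK := Kc_pos c.toMetCoef
  refine ⟨ρ / N, 2 * Kc c.toMetCoef * N, by positivity, ?_, ?_, by positivity, ?_⟩
  · exact (div_le_self h0.le hN1).trans h3
  · exact (div_le_self h0.le hN1).trans h1
  · intro s hs hsρ z hz z' hz' u hu v hv
    have hsN : s * N ≤ ρ := by rwa [le_div_iff₀ hN0] at hsρ
    have hs0 : 0 < s * N := by positivity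
    have e0 : s * N / (2 + 2 * c.L ^ 2) = s := by
      rw [← hN]; field_simp
    have hsm : 12 * c.C * (s * N) ≤ c.lam := by
      refine le_trans ?_ h4
      have := c.Cpos
      gcongr
    have a1 := sc_joint c hmid hs0 (hsN.trans h1) (lt_of_le_of_lt hsN h2) (hsN.trans h3) hsm
      (z := z) (z' := z') (u := u) (v := v) (by rwa [e0]) (by rwa [e0]) (by rwa [e0]) (by rwa [e0])
    have a2 := scc_joint c hmid hs0 (hsN.trans h1) (lt_of_le_of_lt hsN h2) (hsN.trans h3)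
      (z := z) (z' := z') (u := u) (v := v) (by rwa [e0]) (by rwa [e0]) (by rwa [e0]) (by rwa [e0])
    have hsy := c.symm c.x₀ (mem_ball_self c.rpos)
    have hpar : c.G c.x₀ (u - z) (u - z) + c.G c.x₀ (v - z') (v - z') -
        2 * c.G c.x₀ ((1 / 2 : ℝ) • (u + v) - (1 / 2 : ℝ) • (z + z'))
          ((1 / 2 : ℝ) • (u + v) - (1 / 2 : ℝ) • (z + z')) =
        1 / 2 * c.G c.x₀ ((v - u) - (z' - z)) ((v - u) - (z' - z)) := by
      have e1 : (1 / 2 : ℝ) • (u + v) - (1 / 2 : ℝ) • (z + z') =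
        (1 / 2 : ℝ) • ((u - z) + (v - z')) := by module
      have e2 : (v - u) - (z' - z) = (v - z') - (u - z) := by abel
      rw [e1, e2]
      have e3 := hsy (u - z) (v - z')
      simp only [map_smul, map_add, map_sub, LinearMap.smul_apply, LinearMap.add_apply,
        LinearMap.sub_apply, smul_eq_mul] at e3 ⊢
      linarith
    simp only [hdev]
    rw [abs_le]
    constructor <;> nlinarith [a1, a2, hpar]

end Pool.Agent.X178.Nag
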