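import Pool.Agent.X178.Nag.LocJ

/-! Doubling a geodesic arc starting at the centre of a chart is almost linear. -/

set_option autoImplicit false

namespace Pool.Agent.X178.Nag

open Pool.Agent.Helper381 Metric Set

section Par

variable {E : Type*} [NormedAddCommGroup E] [NormedSpace ℝ E]

/-- the squared length on `E × E` used here -/
def nsq (V : E × E) : ℝ := ‖V.1‖ ^ 2 + ‖V.2‖ ^ 2

theorem nsq_nonneg (V : E × E) : 0 ≤ nsq V := by unfold nsq; positivity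

theorem nsq_smul (t : ℝ) (V : E × E) : nsq (t • V) = t ^ 2 * nsq V := by
  unfold nsq
  rw [Prod.smul_fst, Prod.smul_snd, norm_smul, norm_smul, mul_pow, mul_pow, Real.norm_eq_abs,
    sq_abs]
  ring

theorem nsq_add (V W : E × E) : nsq (V + W) ≤ 2 * (nsq V + nsq W) := by
  unfold nsq
  rw [Prod.fst_add, Prod.snd_add]
  have h1 := pow_le_pow_left₀ (norm_nonneg _) (norm_add_le V.1 W.1) 2
  have h2 := pow_le_pow_left₀ (norm_nonneg _) (norm_add_le V.2 W.2) 2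
  nlinarith [sq_nonneg (‖V.1‖ - ‖W.1‖), sq_nonneg (‖V.2‖ - ‖W.2‖)]

theorem nsq_sub (V W : E × E) : nsq (V - W) ≤ 2 * (nsq V + nsq W) := by
  have := nsq_add V (-W)
  rw [← sub_eq_add_neg] at this
  have h : nsq (-W) = nsq W := by unfold nsq; simp
  rwa [h] at this

/-- second difference bound on a convex set -/
def SecB (h : E × E → ℝ) (B : Set (E × E)) (κ : ℝ) : Prop :=
  ∀ P ∈ B, ∀ P' ∈ B, |h P + h P' - 2 * h ((1 / 2 : ℝ) • (P + P'))| ≤ κ * nsq (P' - P)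

/-- the mixed difference -/
def par (h : E × E → ℝ) (P V W : E × E) : ℝ := h (P + V + W) - h (P + V) - h (P + W) + h P

theorem par_le {h : E × E → ℝ} {B : Set (E × E)} {κ : ℝ} (hκ : 0 ≤ κ) (hB : SecB h B κ)
    {P V W : E × E} (h1 : P ∈ B) (h2 : P + V ∈ B) (h3 : P + W ∈ B) (h4 : P + V + W ∈ B) :
    |par h P V W| ≤ 4 * κ * (nsq V + nsq W) := by
  have a1 := hB P h1 (P + V + W) h4
  have a2 := hB (P + V) h2 (P + W) h3
  have e1 : (1 / 2 : ℝ) • (P + (P + V + W)) = (1 / 2 : ℝ) • ((P + V) + (P + W)) := by module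
  rw [e1] at a1
  have e2 : P + V + W - P = V + W := by abel
  have e3 : P + W - (P + V) = W - V := by abel
  rw [e2] at a1
  rw [e3] at a2
  have b1 := nsq_add V W
  have b2 := nsq_sub W V
  have c1 : κ * nsq (V + W) ≤ κ * (2 * (nsq V + nsq W)) := mul_le_mul_of_nonneg_left b1 hκ
  have c2 : κ * nsq (W - V) ≤ κ * (2 * (nsq W + nsq V)) := mul_le_mul_of_nonneg_left b2 hκ
  unfold par
  rw [abs_le] at *
  constructor <;> linarith [a1.1, a1.2, a2.1, a2.2]

theorem par_sum (h : E × E → ℝ) (P V W : E × E) (n : ℕ) :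
    par h P V ((n : ℝ) • W) = ∑ j ∈ Finset.range n, par h (P + (j : ℝ) • W) V W := by
  induction n with
  | zero => simp [par]
  | succ n ih =>
    rw [Finset.sum_range_succ, ← ih]
    unfold par
    have e1 : P + (n : ℝ) • W + V = P + V + (n : ℝ) • W := by abel
    have e2 : P + (n : ℝ) • W + V + W = P + V + ((n + 1 : ℕ) : ℝ) • W := by
      push_cast; module
    have e3 : P + (n : ℝ) • W + W = P + ((n + 1 : ℕ) : ℝ) • W := by push_cast; module
    rw [e2, e1, e3]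
    ring

theorem par_div_le {h : E × E → ℝ} {B : Set (E × E)} {κ : ℝ} (hκ : 0 ≤ κ) (hB : SecB h B κ)
    (hconv : Convex ℝ B) {P V W : E × E} {n : ℕ} (hn : 0 < n)
    (h1 : P ∈ B) (h2 : P + (1 / n : ℝ) • V ∈ B) (h3 : P + W ∈ B)
    (h4 : P + W + (1 / n : ℝ) • V ∈ B) :
    |par h P ((1 / n : ℝ) • V) W| ≤ 4 * κ * (nsq V + nsq W) / n := by
  have hn' : (0 : ℝ) < n := by exact_mod_cast hn
  have e0 : W = (n : ℝ) • ((1 / n : ℝ) • W) := by
    rw [smul_smul]
    have : (n : ℝ) * (1 / n) = 1 := by field_simp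
    rw [this, one_smul]
  have hseg : ∀ j : ℕ, j ≤ n → P + (j : ℝ) • ((1 / n : ℝ) • W) ∈ B := by
    intro j hj
    have h5 : (j : ℝ) / n ≤ 1 := by rw [div_le_one hn']; exact_mod_cast hj
    have h6 := hconv h1 h3 (by linarith : 0 ≤ 1 - (j : ℝ) / n) (by positivity : 0 ≤ (j : ℝ) / n)
      (by ring)
    have e1 : (1 - (j : ℝ) / n) • P + ((j : ℝ) / n) • (P + W) =
        P + (j : ℝ) • ((1 / n : ℝ) • W) := by
      have : (j : ℝ) / n = j * (1 / n) := by ring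
      rw [this]; module
    rwa [e1] at h6
  have hseg' : ∀ j : ℕ, j ≤ n → P + (1 / n : ℝ) • V + (j : ℝ) • ((1 / n : ℝ) • W) ∈ B := by
    intro j hj
    have h5 : (j : ℝ) / n ≤ 1 := by rw [div_le_one hn']; exact_mod_cast hj
    have h6 := hconv h2 h4 (by linarith : 0 ≤ 1 - (j : ℝ) / n) (by positivity : 0 ≤ (j : ℝ) / n)
      (by ring)
    have e1 : (1 - (j : ℝ) / n) • (P + (1 / n : ℝ) • V) + ((j : ℝ) / n) • (P + W + (1 / n : ℝ) • V) =
        P + (1 / n : ℝ) • V + (j : ℝ) • ((1 / n : ℝ) • W) := by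
      have : (j : ℝ) / n = j * (1 / n) := by ring
      rw [this]; module
    rwa [e1] at h6
  conv_lhs => rw [e0]
  rw [par_sum]
  refine (Finset.abs_sum_le_sum_abs _ _).trans ?_
  have hterm : ∀ j ∈ Finset.range n, |par h (P + (j : ℝ) • ((1 / n : ℝ) • W)) ((1 / n : ℝ) • V)
      ((1 / n : ℝ) • W)| ≤ 4 * κ * (nsq V + nsq W) / n ^ 2 := by
    intro j hj
    rw [Finset.mem_range] at hj
    have g1 := hseg j hj.le
    have g2 := hseg' j hj.le
    have g3 := hseg (j + 1) hj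
    have g4 := hseg' (j + 1) hj
    have := par_le hκ hB (P := P + (j : ℝ) • ((1 / n : ℝ) • W)) (V := (1 / n : ℝ) • V)
      (W := (1 / n : ℝ) • W) g1 (by convert g2 using 1; abel)
      (by convert g3 using 1; push_cast; module)
      (by convert g4 using 1; push_cast; module)
    refine this.trans (le_of_eq ?_)
    rw [nsq_smul, nsq_smul]
    field_simp
  refine (Finset.sum_le_sum hterm).trans (le_of_eq ?_)
  rw [Finset.sum_const, Finset.card_range, nsmul_eq_mul]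
  field_simp

end Par

section Dbl

variable {M : Type*} {E : Type*} [MetricSpace M] [NormedAddCommGroup E] [NormedSpace ℝ E]
  (c : Loc M E)

/-- squared distance in the chart -/
noncomputable def fd (u v : E) : ℝ := dist (c.ψ u) (c.ψ v) ^ 2

theorem fd_eq (u v : E) : fd c u v = hdev c (u, v) + c.G c.x₀ (v - u) (v - u) := by
  unfold fd hdev; ring

/-- the sum of squared distances to the ends is minimal at the midpoint -/
theorem F_min {x y m w : M} (h1 : dist x m = dist x y / 2) (h2 : dist m y = dist x y / 2) :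
    dist x m ^ 2 + dist m y ^ 2 ≤ dist x w ^ 2 + dist w y ^ 2 := by
  have h3 := dist_triangle x w y
  rw [h1, h2]
  have h4 : 0 ≤ dist x y := dist_nonneg
  nlinarith [sq_nonneg (dist x w - dist w y)]

theorem F_upper {B : Set (E × E)} {κ : ℝ} (hB : SecB (hdev c) B κ) {x y m v : E}
    (g1 : (x, m + v) ∈ B) (g2 : (x, m - v) ∈ B) (g3 : (m + v, y) ∈ B) (g4 : (m - v, y) ∈ B)
    (hmin : ∀ w, fd c x m + fd c m y ≤ fd c x w + fd c w y) :
    fd c x (m + v) + fd c (m + v) y ≤ fd c x m + fd c m y + (8 * κ + 4 * c.C) * ‖v‖ ^ 2 := by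
  have hsy := c.symm c.x₀ (mem_ball_self c.rpos)
  have a1 := hB _ g1 _ g2
  have a2 := hB _ g3 _ g4
  have e1 : (1 / 2 : ℝ) • ((x, m + v) + (x, m - v)) = (x, m) := by
    ext <;> simp only [Prod.smul_fst, Prod.smul_snd, Prod.fst_add, Prod.snd_add] <;> module
  have e2 : (1 / 2 : ℝ) • ((m + v, y) + (m - v, y)) = (m, y) := by
    ext <;> simp only [Prod.smul_fst, Prod.smul_snd, Prod.fst_add, Prod.snd_add] <;> module
  have n2 : ‖m - v - (m + v)‖ ^ 2 = 4 * ‖v‖ ^ 2 := by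
    have : m - v - (m + v) = (-2 : ℝ) • v := by module
    rw [this, norm_smul]
    have : ‖(-2 : ℝ)‖ = 2 := by norm_num
    rw [this]; ring
  have e3 : nsq ((x, m - v) - (x, m + v)) = 4 * ‖v‖ ^ 2 := by
    unfold nsq
    simp only [Prod.fst_sub, Prod.snd_sub, sub_self, norm_zero]
    rw [n2]; ring
  have e4 : nsq ((m - v, y) - (m + v, y)) = 4 * ‖v‖ ^ 2 := by
    unfold nsq
    simp only [Prod.fst_sub, Prod.snd_sub, sub_self, norm_zero]
    rw [n2]; ring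
  rw [e1, e3] at a1
  rw [e2, e4] at a2
  have b := hmin (m - v)
  have hup := c.upper c.x₀ (mem_ball_self c.rpos) v
  have q1 : c.G c.x₀ (m + v - x) (m + v - x) + c.G c.x₀ (m - v - x) (m - v - x) =
      2 * c.G c.x₀ (m - x) (m - x) + 2 * c.G c.x₀ v v := by
    have e5 : m + v - x = (m - x) + v := by abel
    have e6 : m - v - x = (m - x) - v := by abel
    rw [e5, e6]
    have := hsy (m - x) v
    simp only [map_add, map_sub, LinearMap.add_apply, LinearMap.sub_apply] at this ⊢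
    linarith
  have q2 : c.G c.x₀ (y - (m + v)) (y - (m + v)) + c.G c.x₀ (y - (m - v)) (y - (m - v)) =
      2 * c.G c.x₀ (y - m) (y - m) + 2 * c.G c.x₀ v v := by
    have e5 : y - (m + v) = (y - m) - v := by abel
    have e6 : y - (m - v) = (y - m) + v := by abel
    rw [e5, e6]
    have := hsy (y - m) v
    simp only [map_add, map_sub, LinearMap.add_apply, LinearMap.sub_apply] at this ⊢
    linarith
  simp only [fd_eq] at b ⊢
  rw [abs_le] at a1 a2
  nlinarith [a1.2, a2.2]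

theorem dbl_pre (c : Loc M E) {s K : ℝ} (hs : 0 < s) (hK : 0 < K)
    (hB : SecB (hdev c) (ball c.x₀ s ×ˢ ball c.x₀ s) (K * s)) {m m' y y' : E}
    (hm : m ∈ ball c.x₀ s) (hm' : m' ∈ ball c.x₀ s) (hy : y ∈ ball c.x₀ s) (hy' : y' ∈ ball c.x₀ s)
    (h1 : dist (c.ψ c.x₀) (c.ψ m) = dist (c.ψ c.x₀) (c.ψ y) / 2)
    (h2 : dist (c.ψ m) (c.ψ y) = dist (c.ψ c.x₀) (c.ψ y) / 2)
    (h1' : dist (c.ψ c.x₀) (c.ψ m') = dist (c.ψ c.x₀) (c.ψ y') / 2)
    (h2' : dist (c.ψ m') (c.ψ y') = dist (c.ψ c.x₀) (c.ψ y') / 2) (η : E)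
    (hη : η = (2 : ℝ) • (m - m') - (y - y')) :
    2 * c.G c.x₀ η η ≤ 4 * (K * s) * (2 * ‖η‖ ^ 2 + 2 * ‖m - m'‖ ^ 2 + ‖y - y'‖ ^ 2) := by
  have hsy := c.symm c.x₀ (mem_ball_self c.rpos)
  have hx : c.x₀ ∈ ball c.x₀ s := mem_ball_self hs
  set κ := K * s with hκdef
  have hκ : 0 ≤ κ := by positivity
  have hconv : Convex ℝ (ball c.x₀ s ×ˢ ball c.x₀ s) := (convex_ball _ _).prod (convex_ball _ _)
  set C4 := 8 * κ + 4 * c.C with hC4
  -- eventually in n
  have hev : ∀ p ∈ ball c.x₀ s, ∀ᶠ n : ℕ in Filter.atTop, p + (1 / n : ℝ) • η ∈ ball c.x₀ s ∧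
      p - (1 / n : ℝ) • η ∈ ball c.x₀ s := by
    intro p hp
    have ht : Filter.Tendsto (fun n : ℕ => (1 / n : ℝ)) Filter.atTop (nhds 0) :=
      tendsto_one_div_atTop_nhds_zero_nat
    have t1 : Filter.Tendsto (fun n : ℕ => p + (1 / n : ℝ) • η) Filter.atTop (nhds p) := by
      have := (ht.smul_const η).const_add p
      simpa using this
    have t2 : Filter.Tendsto (fun n : ℕ => p - (1 / n : ℝ) • η) Filter.atTop (nhds p) := by
      have := (ht.smul_const η).const_sub p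
      simpa using this
    exact (t1.eventually (isOpen_ball.mem_nhds hp)).and (t2.eventually (isOpen_ball.mem_nhds hp))
  have hmin : ∀ w, fd c c.x₀ m + fd c m y ≤ fd c c.x₀ w + fd c w y := fun w =>
    F_min h1 h2
  have hmin' : ∀ w, fd c c.x₀ m' + fd c m' y' ≤ fd c c.x₀ w + fd c w y' := fun w =>
    F_min h1' h2'
  have main : ∀ᶠ n : ℕ in Filter.atTop, 2 * c.G c.x₀ η η ≤
      4 * κ * (2 * ‖η‖ ^ 2 + 2 * ‖m - m'‖ ^ 2 + ‖y - y'‖ ^ 2) + C4 * ‖η‖ ^ 2 * (1 / n : ℝ) := by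
    filter_upwards [hev m hm, hev m' hm', Filter.eventually_gt_atTop 0] with n hn1 hn2 hn
    have hn' : (0 : ℝ) < n := by exact_mod_cast hn
    set v : E := (1 / n : ℝ) • η with hv
    have hvn : ‖v‖ ^ 2 = ‖η‖ ^ 2 / n ^ 2 := by
      rw [hv, norm_smul, Real.norm_of_nonneg (by positivity)]
      field_simp
    have u1 := F_upper c hB (x := c.x₀) (y := y) (m := m) (v := v) ⟨hx, hn1.1⟩ ⟨hx, hn1.2⟩
      ⟨hn1.1, hy⟩ ⟨hn1.2, hy⟩ hmin
    have u2 := hmin' (m' + v)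
    have e1 : (c.x₀, m') + (1 / n : ℝ) • ((0 : E), η) + (0, m - m') = (c.x₀, m + v) := by
      refine Prod.ext (by simp) ?_
      show m' + (1 / n : ℝ) • η + (m - m') = m + v
      rw [← hv]; abel
    have e1' : (c.x₀, m') + (0, m - m') + (1 / n : ℝ) • ((0 : E), η) = (c.x₀, m + v) := by
      rw [← e1]; abel
    have e2 : (c.x₀, m') + (1 / n : ℝ) • ((0 : E), η) = (c.x₀, m' + v) := by
      refine Prod.ext (by simp) ?_
      show m' + (1 / n : ℝ) • η = m' + v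
      rw [← hv]
    have e3 : (c.x₀, m') + (0, m - m') = (c.x₀, m) := by
      refine Prod.ext (by simp) ?_
      show m' + (m - m') = m
      abel
    have f1 : (m', y') + (1 / n : ℝ) • (η, (0 : E)) + (m - m', y - y') = (m + v, y) := by
      refine Prod.ext ?_ ?_
      · show m' + (1 / n : ℝ) • η + (m - m') = m + v
        rw [← hv]; abel
      · show y' + (1 / n : ℝ) • (0 : E) + (y - y') = y
        rw [smul_zero]; abel
    have f1' : (m', y') + (m - m', y - y') + (1 / n : ℝ) • (η, (0 : E)) = (m + v, y) := by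
      rw [← f1]; abel
    have f2 : (m', y') + (1 / n : ℝ) • (η, (0 : E)) = (m' + v, y') := by
      refine Prod.ext ?_ ?_
      · show m' + (1 / n : ℝ) • η = m' + v
        rw [← hv]
      · show y' + (1 / n : ℝ) • (0 : E) = y'
        rw [smul_zero, add_zero]
    have f3 : (m', y') + (m - m', y - y') = (m, y) := by
      refine Prod.ext ?_ ?_
      · show m' + (m - m') = m
        abel
      · show y' + (y - y') = y
        abel
    have p1 := par_div_le hκ hB hconv (P := (c.x₀, m')) (V := (0, η)) (W := (0, m - m')) hn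
      ⟨hx, hm'⟩ (by rw [e2]; exact ⟨hx, hn2.1⟩) (by rw [e3]; exact ⟨hx, hm⟩)
      (by rw [e1']; exact ⟨hx, hn1.1⟩)
    have p2 := par_div_le hκ hB hconv (P := (m', y')) (V := (η, 0)) (W := (m - m', y - y')) hn
      ⟨hm', hy'⟩ (by rw [f2]; exact ⟨hn2.1, hy'⟩) (by rw [f3]; exact ⟨hm, hy⟩)
      (by rw [f1']; exact ⟨hn1.1, hy⟩)
    have q1 : par (hdev c) (c.x₀, m') ((1 / n : ℝ) • (0, η)) (0, m - m') =
        hdev c (c.x₀, m + v) - hdev c (c.x₀, m' + v) - hdev c (c.x₀, m) + hdev c (c.x₀, m') := by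
      unfold par
      rw [e1, e2, e3]
    have q2 : par (hdev c) (m', y') ((1 / n : ℝ) • (η, 0)) (m - m', y - y') =
        hdev c (m + v, y) - hdev c (m' + v, y') - hdev c (m, y) + hdev c (m', y') := by
      unfold par
      rw [f1, f2, f3]
    rw [q1] at p1
    rw [q2] at p2
    have n1 : nsq ((0 : E), η) + nsq ((0 : E), m - m') = ‖η‖ ^ 2 + ‖m - m'‖ ^ 2 := by
      unfold nsq; simp
    have n2 : nsq (η, (0 : E)) + nsq (m - m', y - y') = ‖η‖ ^ 2 + (‖m - m'‖ ^ 2 + ‖y - y'‖ ^ 2) := by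
      unfold nsq; simp
    rw [n1] at p1
    rw [n2] at p2
    -- the quadratic part
    have r1 : c.G c.x₀ (m + v - c.x₀) (m + v - c.x₀) - c.G c.x₀ (m - c.x₀) (m - c.x₀) -
        c.G c.x₀ (m' + v - c.x₀) (m' + v - c.x₀) + c.G c.x₀ (m' - c.x₀) (m' - c.x₀) =
        2 * c.G c.x₀ v (m - m') := by
      have e5 : m + v - c.x₀ = (m - c.x₀) + v := by abel
      have e6 : m' + v - c.x₀ = (m' - c.x₀) + v := by abel
      have e7 : m - m' = (m - c.x₀) - (m' - c.x₀) := by abel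
      rw [e5, e6, e7]
      have t1 := hsy (m - c.x₀) v
      have t2 := hsy (m' - c.x₀) v
      simp only [map_add, map_sub, LinearMap.add_apply, LinearMap.sub_apply] at t1 t2 ⊢
      linarith
    have r2 : c.G c.x₀ (y - (m + v)) (y - (m + v)) - c.G c.x₀ (y - m) (y - m) -
        c.G c.x₀ (y' - (m' + v)) (y' - (m' + v)) + c.G c.x₀ (y' - m') (y' - m') =
        2 * c.G c.x₀ v ((m - m') - (y - y')) := by
      have e5 : y - (m + v) = (y - m) - v := by abel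
      have e6 : y' - (m' + v) = (y' - m') - v := by abel
      have e7 : (m - m') - (y - y') = (y' - m') - (y - m) := by abel
      rw [e5, e6, e7]
      have t1 := hsy (y - m) v
      have t2 := hsy (y' - m') v
      simp only [map_add, map_sub, LinearMap.add_apply, LinearMap.sub_apply] at t1 t2 ⊢
      linarith
    have r3 : 2 * c.G c.x₀ v (m - m') + 2 * c.G c.x₀ v ((m - m') - (y - y')) =
        2 / n * c.G c.x₀ η η := by
      have e8 : c.G c.x₀ v (m - m') + c.G c.x₀ v ((m - m') - (y - y')) = c.G c.x₀ v η := by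
        rw [← map_add, hη]
        congr 1
        module
      have e9 : c.G c.x₀ v η = 1 / n * c.G c.x₀ η η := by
        rw [hv, map_smul, LinearMap.smul_apply, smul_eq_mul]
      calc _ = 2 * (c.G c.x₀ v (m - m') + c.G c.x₀ v ((m - m') - (y - y'))) := by ring
        _ = _ := by rw [e8, e9]; ring
    simp only [fd_eq] at u1 u2
    rw [abs_le] at p1 p2
    have fin1 : 2 / n * c.G c.x₀ η η ≤ C4 * ‖v‖ ^ 2 + 4 * κ * (‖η‖ ^ 2 + ‖m - m'‖ ^ 2) / n +
        4 * κ * (‖η‖ ^ 2 + (‖m - m'‖ ^ 2 + ‖y - y'‖ ^ 2)) / n := by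
      linarith [p1.1, p2.1, r1, r2, r3, u1, u2]
    rw [hvn] at fin1
    have fin2 := mul_le_mul_of_nonneg_left fin1 hn'.le
    have l1 : (n : ℝ) * (2 / n * c.G c.x₀ η η) = 2 * c.G c.x₀ η η := by field_simp
    have l2 : (n : ℝ) * (C4 * (‖η‖ ^ 2 / n ^ 2) + 4 * κ * (‖η‖ ^ 2 + ‖m - m'‖ ^ 2) / n +
        4 * κ * (‖η‖ ^ 2 + (‖m - m'‖ ^ 2 + ‖y - y'‖ ^ 2)) / n) =
        4 * κ * (2 * ‖η‖ ^ 2 + 2 * ‖m - m'‖ ^ 2 + ‖y - y'‖ ^ 2) + C4 * ‖η‖ ^ 2 * (1 / n : ℝ) := by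
      field_simp
      ring
    rw [l1, l2] at fin2
    exact fin2
  have ht : Filter.Tendsto (fun n : ℕ => 4 * κ * (2 * ‖η‖ ^ 2 + 2 * ‖m - m'‖ ^ 2 + ‖y - y'‖ ^ 2) +
      C4 * ‖η‖ ^ 2 * (1 / n : ℝ)) Filter.atTop
      (nhds (4 * κ * (2 * ‖η‖ ^ 2 + 2 * ‖m - m'‖ ^ 2 + ‖y - y'‖ ^ 2) + C4 * ‖η‖ ^ 2 * 0)) :=
    (tendsto_one_div_atTop_nhds_zero_nat.const_mul _).const_add _
  rw [mul_zero, add_zero] at ht
  exact ge_of_tendsto ht main

theorem dbl_real {a b e q : ℝ} (ha : 0 ≤ a) (hb : 0 ≤ b) (he : 0 ≤ e) (hq : 0 ≤ q)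
    (hq2 : q ≤ 1 / 2) (h1 : e ^ 2 ≤ q ^ 2 * (a ^ 2 + b ^ 2)) (h2 : b ≤ 2 * a + e) :
    b ≤ 2 * (1 + 3 * q) * a := by
  have h3 : e ≤ q * (a + b) := by
    have : e ^ 2 ≤ (q * (a + b)) ^ 2 := by
      refine h1.trans ?_
      rw [mul_pow]
      have : 0 ≤ a * b := mul_nonneg ha hb
      have : a ^ 2 + b ^ 2 ≤ (a + b) ^ 2 := by nlinarith
      gcongr
    exact (pow_le_pow_iff_left₀ he (by positivity) two_ne_zero).mp this
  have h4 : e ≤ q * (3 * a + e) := h3.trans (mul_le_mul_of_nonneg_left (by linarith) hq)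
  have h5 : e ≤ 6 * q * a := by nlinarith
  nlinarith

/-- doubling a short arc starting at the centre of the chart -/
theorem dbl
    (hmid : ∀ x y : M, ∃ m : M, dist x m = dist x y / 2 ∧ dist m y = dist x y / 2) :
    ∃ s₁ K₁ : ℝ, 0 < s₁ ∧ s₁ ≤ c.r₁ ∧ 0 < K₁ ∧ ∀ s, 0 < s → s ≤ s₁ →
      ∀ m ∈ ball c.x₀ s, ∀ m' ∈ ball c.x₀ s, ∀ y ∈ ball c.x₀ s, ∀ y' ∈ ball c.x₀ s,
      dist (c.ψ c.x₀) (c.ψ m) = dist (c.ψ c.x₀) (c.ψ y) / 2 →
      dist (c.ψ m) (c.ψ y) = dist (c.ψ c.x₀) (c.ψ y) / 2 →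
      dist (c.ψ c.x₀) (c.ψ m') = dist (c.ψ c.x₀) (c.ψ y') / 2 →
      dist (c.ψ m') (c.ψ y') = dist (c.ψ c.x₀) (c.ψ y') / 2 →
      ‖y - y'‖ ≤ 2 * (1 + K₁ * Real.sqrt s) * ‖m - m'‖ := by
  obtain ⟨s₀, K, hs0, hs01, hs0r, hK, hsec⟩ := hdev_second c hmid
  have hl := c.lampos
  set q0 := 8 * K / c.lam with hq0
  have hq0pos : 0 < q0 := by positivity
  refine ⟨min s₀ (min (c.lam / (8 * K)) (1 / (4 * q0))), 3 * Real.sqrt q0, ?_, ?_, by positivity,
    ?_⟩
  · exact lt_min hs0 (lt_min (by positivity) (by positivity))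
  · exact (min_le_left _ _).trans hs0r
  · intro s hs hss m hm m' hm' y hy y' hy' h1 h2 h1' h2'
    have t1 : s ≤ s₀ := hss.trans (min_le_left _ _)
    have t2 : s ≤ c.lam / (8 * K) := hss.trans ((min_le_right _ _).trans (min_le_left _ _))
    have t3 : s ≤ 1 / (4 * q0) := hss.trans ((min_le_right _ _).trans (min_le_right _ _))
    rw [le_div_iff₀ (by positivity)] at t2 t3
    have hB : SecB (hdev c) (ball c.x₀ s ×ˢ ball c.x₀ s) (K * s) := by
      rintro ⟨z, u⟩ ⟨hz, hu⟩ ⟨z', v⟩ ⟨hz', hv⟩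
      exact hsec s hs t1 z hz z' hz' u hu v hv
    set η : E := (2 : ℝ) • (m - m') - (y - y') with hη
    have key := dbl_pre c hs hK hB hm hm' hy hy' h1 h2 h1' h2' η hη
    have hlow := c.lower c.x₀ (mem_ball_self c.rpos) η
    have hsq : Real.sqrt (q0 * s) ^ 2 = q0 * s := Real.sq_sqrt (by positivity)
    have e2 : ‖η‖ ^ 2 ≤ Real.sqrt (q0 * s) ^ 2 * (‖m - m'‖ ^ 2 + ‖y - y'‖ ^ 2) := by
      rw [hsq]
      have g1 : c.lam * ‖η‖ ^ 2 ≤ 8 * K * s * (‖m - m'‖ ^ 2 + ‖y - y'‖ ^ 2) := by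
        have g2 : 0 ≤ ‖η‖ ^ 2 := sq_nonneg _
        have g3 : s * (8 * K) * ‖η‖ ^ 2 ≤ c.lam * ‖η‖ ^ 2 := by gcongr
        have g4 : 0 ≤ K * s * ‖y - y'‖ ^ 2 := by positivity
        nlinarith
      have g5 : q0 * s * (‖m - m'‖ ^ 2 + ‖y - y'‖ ^ 2) =
          (8 * K * s * (‖m - m'‖ ^ 2 + ‖y - y'‖ ^ 2)) / c.lam := by
        rw [hq0]; field_simp
      rw [g5, le_div_iff₀ hl]
      linarith
    have e3 : Real.sqrt (q0 * s) ≤ 1 / 2 := by
      rw [Real.sqrt_le_left (by norm_num)]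
      nlinarith
    have e4 : ‖y - y'‖ ≤ 2 * ‖m - m'‖ + ‖η‖ := by
      have : y - y' = (2 : ℝ) • (m - m') - η := by rw [hη]; abel
      rw [this]
      refine (norm_sub_le _ _).trans ?_
      rw [norm_smul]
      have : ‖(2 : ℝ)‖ = 2 := by norm_num
      rw [this]
    have e5 := dbl_real (norm_nonneg _) (norm_nonneg _) (norm_nonneg _) (Real.sqrt_nonneg _) e3 e2 e4
    refine e5.trans (le_of_eq ?_)
    rw [Real.sqrt_mul hq0pos.le]
    ring

end Dbl

end Pool.Agent.X178.Nag
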