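import Pool.Agent.X178.Nag.Par

/-! An isometry with a fixed point and trivial differential there is trivial near the point. -/

set_option autoImplicit false

namespace Pool.Agent.X178.Nag

open Pool.Agent.Helper381 Metric Set Filter Topology

variable {M : Type*} {E : Type*} [MetricSpace M] [NormedAddCommGroup E] [NormedSpace ℝ E]
  (c : Loc M E)

theorem prod_bound {a q : ℝ} (ha : 0 ≤ a) (hq0 : 0 ≤ q) (hq1 : q < 1) (k : ℕ) :
    ∏ j ∈ Finset.range k, (1 + a * q ^ j) ≤ Real.exp (a / (1 - q)) := by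
  have h1 : ∏ j ∈ Finset.range k, (1 + a * q ^ j) ≤ ∏ j ∈ Finset.range k, Real.exp (a * q ^ j) := by
    apply Finset.prod_le_prod
    · intro j _; positivity
    · intro j _
      have := Real.add_one_le_exp (a * q ^ j)
      linarith
  rw [← Real.exp_sum] at h1
  refine h1.trans (Real.exp_le_exp.mpr ?_)
  rw [← Finset.mul_sum, div_eq_mul_inv]
  apply mul_le_mul_of_nonneg_left _ ha
  have h2 : Summable (fun j : ℕ => q ^ j) := summable_geometric_of_lt_one hq0 hq1
  rw [← tsum_geometric_of_lt_one hq0 hq1]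
  exact h2.sum_le_tsum _ (fun j _ => by positivity)

theorem rigid_local
    (hmid : ∀ x y : M, ∃ m : M, dist x m = dist x y / 2 ∧ dist m y = dist x y / 2)
    (θ : M → M) (hθ : ∀ x y, dist (θ x) (θ y) = dist x y) (hfix : θ (c.ψ c.x₀) = c.ψ c.x₀)
    (hder : HasFDerivAt (fun v => c.φ (θ (c.ψ v))) (ContinuousLinearMap.id ℝ E) c.x₀) :
    ∃ δ > 0, ∀ y, dist (c.ψ c.x₀) y < δ → θ y = y := by
  obtain ⟨s₁, K₁, hs1, hs1r, hK1, hdbl⟩ := dbl c hmid
  have hL := c.one_le_L
  have hτ := c.τpos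
  have hr1 := c.r₁pos
  have hx0 : c.x₀ ∈ ball c.x₀ c.r₁ := mem_ball_self hr1
  set x := c.ψ c.x₀ with hx
  refine ⟨min c.τ (s₁ / (2 * c.L)), lt_min hτ (by positivity), ?_⟩
  intro y hy
  set D := dist x y with hD
  have hDτ : D < c.τ := lt_of_lt_of_le hy (min_le_left _ _)
  have hDs : D ≤ s₁ / (2 * c.L) := (lt_of_lt_of_le hy (min_le_right _ _)).le
  rw [le_div_iff₀ (by positivity)] at hDs
  rcases eq_or_ne x y with hxy | hxy
  · rw [← hxy]; exact hfix
  have hDpos : 0 < D := dist_pos.mpr hxy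
  choose mid hm1 hm2 using hmid
  let Y : ℕ → M := fun k => Nat.rec y (fun _ z => mid x z) k
  have hY0 : Y 0 = y := rfl
  have hYs : ∀ k, Y (k + 1) = mid x (Y k) := fun k => rfl
  have hYd : ∀ k, dist x (Y k) = D / 2 ^ k := by
    intro k
    induction k with
    | zero => simp [hY0, hD]
    | succ k ih => rw [hYs, hm1, ih, pow_succ]; field_simp
  have hYle : ∀ k, dist x (Y k) < c.τ := by
    intro k
    rw [hYd]
    refine lt_of_le_of_lt (div_le_self hDpos.le ?_) hDτ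
    exact one_le_pow₀ (by norm_num)
  have hθx : ∀ z, dist x (θ z) = dist x z := by
    intro z
    conv_lhs => rw [← hfix]
    exact hθ _ _
  have hu : ∀ k, ∃ w ∈ ball c.x₀ c.r, c.ψ w = Y k ∧ ‖w - c.x₀‖ ≤ c.L * (D / 2 ^ k) := by
    intro k
    obtain ⟨w, h1, h2, h3⟩ := c.in_chart hx0 (hYle k)
    exact ⟨w, h1, h2, by rwa [← hx, hYd] at h3⟩
  have hu' : ∀ k, ∃ w ∈ ball c.x₀ c.r, c.ψ w = θ (Y k) ∧ ‖w - c.x₀‖ ≤ c.L * (D / 2 ^ k) := by
    intro k
    obtain ⟨w, h1, h2, h3⟩ := c.in_chart hx0 (y := θ (Y k)) (by rw [← hx, hθx]; exact hYle k)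
    exact ⟨w, h1, h2, by rwa [← hx, hθx, hYd] at h3⟩
  choose u hur hu1 hu2 using hu
  choose u' hur' hu1' hu2' using hu'
  set s : ℕ → ℝ := fun k => 2 * c.L * D / 2 ^ k with hs
  have hspos : ∀ k, 0 < s k := by intro k; simp only [hs]; positivity
  have hsle : ∀ k, s k ≤ s₁ := by
    intro k
    simp only [hs]
    refine (div_le_self (by positivity) (one_le_pow₀ (by norm_num))).trans ?_
    linarith
  have hmem : ∀ w k, ‖w - c.x₀‖ ≤ c.L * (D / 2 ^ k) → w ∈ ball c.x₀ (s k) := by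
    intro w k hw
    rw [mem_ball, dist_eq_norm]
    refine lt_of_le_of_lt hw ?_
    simp only [hs]
    have h1 : 0 < c.L * (D / 2 ^ k) := by positivity
    have h2 : 2 * c.L * D / 2 ^ k = 2 * (c.L * (D / 2 ^ k)) := by ring
    rw [h2]; linarith
  have hmono : ∀ k, c.L * (D / 2 ^ (k + 1)) ≤ c.L * (D / 2 ^ k) := by
    intro k
    have : D / 2 ^ (k + 1) ≤ D / 2 ^ k := by
      apply div_le_div_of_nonneg_left hDpos.le (by positivity)
      exact pow_le_pow_right₀ (by norm_num) (by omega)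
    gcongr
  have hstep : ∀ k, ‖u k - u' k‖ ≤ 2 * (1 + K₁ * Real.sqrt (s k)) * ‖u (k + 1) - u' (k + 1)‖ := by
    intro k
    apply hdbl (s k) (hspos k) (hsle k) _ (hmem _ k ((hu2 (k + 1)).trans (hmono k)))
      _ (hmem _ k ((hu2' (k + 1)).trans (hmono k))) _ (hmem _ k (hu2 k)) _ (hmem _ k (hu2' k))
    · rw [hu1, hu1, hYs, hm1]
    · rw [hu1, hu1, hYs, hm2]
    · rw [hu1', hu1', hθx, hθx, hYs, hm1]
    · rw [hu1', hu1', hθ, hθx, hYs, hm2]
  set q := Real.sqrt (1 / 2) with hq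
  set cc := Real.sqrt (2 * c.L * D) with hcc
  have hqs : q ^ 2 = 1 / 2 := Real.sq_sqrt (by norm_num)
  have hccs : cc ^ 2 = 2 * c.L * D := Real.sq_sqrt (by positivity)
  have hq0 : 0 ≤ q := Real.sqrt_nonneg _
  have hcc0 : 0 ≤ cc := Real.sqrt_nonneg _
  have hq1 : q < 1 := by
    by_contra hcon
    push Not at hcon
    nlinarith
  have hsqrt : ∀ k, Real.sqrt (s k) = cc * q ^ k := by
    intro k
    have : s k = (cc * q ^ k) ^ 2 := by
      rw [mul_pow, hccs, ← pow_mul, mul_comm k 2, pow_mul, hqs]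
      simp only [hs]
      rw [one_div, inv_pow]
      field_simp
    rw [this, Real.sqrt_sq (by positivity)]
  have hind : ∀ k, ‖u 0 - u' 0‖ ≤ 2 ^ k * (∏ j ∈ Finset.range k, (1 + (K₁ * cc) * q ^ j)) *
      ‖u k - u' k‖ := by
    intro k
    induction k with
    | zero => simp
    | succ k ih =>
      refine ih.trans ?_
      have h1 := hstep k
      rw [hsqrt] at h1
      have h2 : 0 ≤ ∏ j ∈ Finset.range k, (1 + (K₁ * cc) * q ^ j) :=
        Finset.prod_nonneg fun j _ => by positivity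
      calc 2 ^ k * (∏ j ∈ Finset.range k, (1 + (K₁ * cc) * q ^ j)) * ‖u k - u' k‖
          ≤ 2 ^ k * (∏ j ∈ Finset.range k, (1 + (K₁ * cc) * q ^ j)) *
            (2 * (1 + K₁ * (cc * q ^ k)) * ‖u (k + 1) - u' (k + 1)‖) := by gcongr
        _ = _ := by rw [Finset.prod_range_succ, pow_succ]; ring
  set B := Real.exp (K₁ * cc / (1 - q)) with hB
  have hBpos : 0 < B := Real.exp_pos _
  have hbd : ∀ k, ‖u 0 - u' 0‖ ≤ 2 ^ k * B * ‖u k - u' k‖ := by
    intro k
    refine (hind k).trans ?_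
    have := prod_bound (a := K₁ * cc) (by positivity) hq0 hq1 k
    gcongr
  -- the derivative
  have hφu' : ∀ k, c.φ (θ (c.ψ (u k))) = u' k := by
    intro k
    rw [hu1, ← hu1', c.φψ _ (hur' k)]
  have hφ0 : c.φ (θ (c.ψ c.x₀)) = c.x₀ := by
    rw [← hx, hfix, hx, c.φψ _ (mem_ball_self c.rpos)]
  have hutend : Tendsto u atTop (𝓝 c.x₀) := by
    rw [tendsto_iff_norm_sub_tendsto_zero]
    refine squeeze_zero (fun _ => norm_nonneg _) hu2 ?_
    have h1 : Tendsto (fun k : ℕ => (1 / 2 : ℝ) ^ k) atTop (𝓝 0) :=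
      tendsto_pow_atTop_nhds_zero_of_lt_one (by norm_num) (by norm_num)
    have h2 := h1.const_mul (c.L * D)
    rw [mul_zero] at h2
    refine h2.congr fun k => ?_
    rw [one_div, inv_pow]; field_simp
  have hsmall : ∀ ε > 0, ∀ᶠ k in atTop, ‖u k - u' k‖ ≤ ε * (c.L * (D / 2 ^ k)) := by
    intro ε hε
    have h1 := (Asymptotics.isLittleO_iff.mp hder.isLittleO) hε
    have h2 := hutend.eventually h1
    filter_upwards [h2] with k hk
    rw [hφu', hφ0, ContinuousLinearMap.id_apply] at hk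
    have e1 : u' k - c.x₀ - (u k - c.x₀) = u' k - u k := by abel
    rw [e1, norm_sub_rev] at hk
    refine hk.trans ?_
    have := hu2 k
    gcongr
  have hzero : ‖u 0 - u' 0‖ ≤ 0 := by
    apply le_of_forall_pos_le_add
    intro ε hε
    rw [zero_add]
    have hBL : 0 < B * (c.L * D) := by positivity
    obtain ⟨k, hk⟩ := (hsmall (ε / (B * (c.L * D))) (by positivity)).exists
    refine (hbd k).trans ?_
    calc 2 ^ k * B * ‖u k - u' k‖ ≤ 2 ^ k * B * (ε / (B * (c.L * D)) * (c.L * (D / 2 ^ k))) := by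
          gcongr
      _ = ε := by field_simp
  have heq : u 0 = u' 0 := by
    have := le_antisymm hzero (norm_nonneg _)
    rwa [norm_eq_zero, sub_eq_zero] at this
  calc θ y = c.ψ (u' 0) := by rw [hu1', hY0]
    _ = c.ψ (u 0) := by rw [heq]
    _ = y := by rw [hu1, hY0]

end Pool.Agent.X178.Nag
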