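import Pool.Agent.X178.Nag.Rigid
import Pool.Agent.Helper381.Riem3

/-! Isometries with differential `-1` at a fixed point are symmetries. -/

set_option autoImplicit false

namespace Pool.Agent.X178.Nag

open Pool.Agent.Helper381 Metric Set Filter Topology Bundle Manifold
open scoped ContDiff

/-- an isometry of a compact metric space is onto -/
theorem surjective_of_isometry {M : Type*} [MetricSpace M] [CompactSpace M] {f : M → M}
    (hf : Isometry f) : Function.Surjective f := by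
  by_contra hns
  simp only [Function.Surjective, not_forall, not_exists] at hns
  obtain ⟨y, hy⟩ := hns
  have hcl : IsClosed (range f) := (isCompact_range hf.continuous).isClosed
  have hyr : y ∉ range f := fun ⟨x, hx⟩ => hy x hx
  have hne : (range f).Nonempty := ⟨f y, y, rfl⟩
  set ε := infDist y (range f) with hε
  have hεpos : 0 < ε := (hcl.notMem_iff_infDist_pos hne).mp hyr
  have hsep : ∀ m k : ℕ, ε ≤ dist (f^[m] y) (f^[m + (k + 1)] y) := by
    intro m k
    induction m with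
    | zero =>
      rw [Function.iterate_zero, id, zero_add, Function.iterate_succ_apply']
      exact infDist_le_dist_of_mem ⟨_, rfl⟩
    | succ m ih =>
      have e : m + 1 + (k + 1) = (m + (k + 1)) + 1 := by ring
      rw [e, Function.iterate_succ_apply', Function.iterate_succ_apply', hf.dist_eq]
      exact ih
  obtain ⟨a, φ, hφ, hlim⟩ := CompactSpace.tendsto_subseq (fun n => f^[n] y)
  have hc := hlim.cauchySeq
  rw [Metric.cauchySeq_iff] at hc
  obtain ⟨N, hN⟩ := hc ε hεpos
  have h1 := hN N le_rfl (N + 1) (Nat.le_succ N)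
  have h2 : φ N < φ (N + 1) := hφ (Nat.lt_succ_self N)
  obtain ⟨k, hk⟩ := Nat.exists_eq_add_of_lt h2
  have h3 := hsep (φ N) k
  have e : φ N + (k + 1) = φ (N + 1) := by omega
  rw [e] at h3
  exact absurd h1 (not_lt.mpr h3)

/-- the isometric equivalence of a compact metric space given by an isometry -/
noncomputable def isoEquiv {M : Type*} [MetricSpace M] [CompactSpace M] {f : M → M}
    (hf : Isometry f) : M ≃ᵢ M :=
  IsometryEquiv.mk (Equiv.ofBijective f ⟨hf.injective, surjective_of_isometry hf⟩) hf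

theorem isoEquiv_apply {M : Type*} [MetricSpace M] [CompactSpace M] {f : M → M}
    (hf : Isometry f) (x : M) : isoEquiv hf x = f x := rfl

section Man

variable {E : Type*} [NormedAddCommGroup E] [NormedSpace ℝ E] [FiniteDimensional ℝ E]
  {M : Type*} [MetricSpace M] [ChartedSpace E M] [IsManifold 𝓘(ℝ, E) ∞ M]
  [RiemannianBundle (fun (x : M) ↦ TangentSpace 𝓘(ℝ, E) x)]
  [IsContMDiffRiemannianBundle 𝓘(ℝ, E) ∞ E (fun (x : M) ↦ TangentSpace 𝓘(ℝ, E) x)]
  [IsRiemannianManifold 𝓘(ℝ, E) M]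

theorem exists_loc' (p : M) : ∃ c : Loc M E, c.ψ c.x₀ = p ∧ c.φ = extChartAt 𝓘(ℝ, E) p ∧
    c.ψ = psi (E := E) p ∧ c.x₀ = extChartAt 𝓘(ℝ, E) p p := by
  obtain ⟨g, hgx, hgt, hG⟩ := exists_metCoef (E := E) p
  refine ⟨{ toMetCoef := g, φ := extChartAt 𝓘(ℝ, E) p, ψ := psi p,
            φψ := fun v hv => (extChartAt 𝓘(ℝ, E) p).right_inv (hgt hv),
            isOpen_image := fun V hV hVo => isOpen_psi_image p (hV.trans hgt) hVo,
            contφ := ?_, contψ := (continuousOn_extChartAt_symm p).mono hgt,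
            up := ?_, lo := ?_ }, ?_, rfl, rfl, hgx⟩
  · apply (continuousOn_extChartAt p).mono
    rintro _ ⟨v, hv, rfl⟩
    exact (extChartAt 𝓘(ℝ, E) p).map_target (hgt hv)
  · intro x hx y hy K hK h
    apply up_chart p _ K hK
    · intro t ht
      have := h t ht
      rwa [hG] at this
    · intro t ht
      apply hgt
      have := (convex_ball g.x₀ g.r) hx hy (by linarith [ht.2] : (0 : ℝ) ≤ 1 - t) ht.1 (by ring)
      have e : (1 - t) • x + t • y = x + t • (y - x) := by module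
      rwa [e] at this
  · intro x hx s K hs hK h y hy
    obtain ⟨w, hw, hwy, hle⟩ := lo_chart p hgt hx hs hK (by
      intro w hw
      have := h w (by rw [hG]; exact hw)
      refine ⟨this.1, fun v => ?_⟩
      have h2 := this.2 v
      rwa [hG, hG] at h2) y hy
    exact ⟨w, hw, hwy, by rw [hG]; exact hle⟩
  · change psi p g.x₀ = p
    rw [hgx]
    exact extChartAt_to_inv p

omit [FiniteDimensional ℝ E] [IsManifold 𝓘(ℝ, E) ∞ M]
  [RiemannianBundle (fun (x : M) ↦ TangentSpace 𝓘(ℝ, E) x)]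
  [IsContMDiffRiemannianBundle 𝓘(ℝ, E) ∞ E (fun (x : M) ↦ TangentSpace 𝓘(ℝ, E) x)]
  [IsRiemannianManifold 𝓘(ℝ, E) M] in
/-- the derivative in the chart of a map with a fixed point -/
theorem hasFDerivAt_chart {θ : M → M} {p : M} (hp : θ p = p) {L : E →L[ℝ] E}
    (h : HasMFDerivAt 𝓘(ℝ, E) 𝓘(ℝ, E) θ p L) :
    HasFDerivAt (fun v => extChartAt 𝓘(ℝ, E) p (θ (psi (E := E) p v))) L
      (extChartAt 𝓘(ℝ, E) p p) := by
  have h1 := h.2
  simp only [writtenInExtChartAt, ModelWithCorners.range_eq_univ] at h1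
  rw [hp] at h1
  exact hasFDerivWithinAt_univ.mp h1

omit [FiniteDimensional ℝ E] [IsManifold 𝓘(ℝ, E) ∞ M]
  [RiemannianBundle (fun (x : M) ↦ TangentSpace 𝓘(ℝ, E) x)]
  [IsContMDiffRiemannianBundle 𝓘(ℝ, E) ∞ E (fun (x : M) ↦ TangentSpace 𝓘(ℝ, E) x)]
  [IsRiemannianManifold 𝓘(ℝ, E) M] in
theorem hasFDerivAt_of_mfderiv {s : M → M} {p : M} (hs : s p = p)
    (hd : mfderiv 𝓘(ℝ, E) 𝓘(ℝ, E) s p = -ContinuousLinearMap.id ℝ E) :
    HasFDerivAt (fun v => extChartAt 𝓘(ℝ, E) p (s (psi (E := E) p v)))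
      (-ContinuousLinearMap.id ℝ E) (extChartAt 𝓘(ℝ, E) p p) := by
  rcases subsingleton_or_nontrivial E with hE | hE
  · have h0 : (-ContinuousLinearMap.id ℝ E) = 0 := by
      ext v; exact Subsingleton.elim _ _
    rw [h0]
    exact hasFDerivAt_of_subsingleton _ _
  · have hmd : MDifferentiableAt 𝓘(ℝ, E) 𝓘(ℝ, E) s p := by
      by_contra hcon
      have h0 := mfderiv_zero_of_not_mdifferentiableAt hcon
      rw [h0] at hd
      obtain ⟨v, hv⟩ := exists_ne (0 : E)
      apply hv
      have h1 : (0 : E) = -v := congrArg (fun L : E →L[ℝ] E => L v) hd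
      exact neg_eq_zero.mp h1.symm
    have h := hmd.hasMFDerivAt
    rw [hd] at h
    exact hasFDerivAt_chart hs h

/-- an isometry with differential `-1` at a fixed point is a symmetry -/
theorem isSymmetryAt_of_mfderiv [CompactSpace M] [PreconnectedSpace M] {s : M → M} (hs : Isometry s)
    {p : M} (hp : s p = p) (hd : mfderiv 𝓘(ℝ, E) 𝓘(ℝ, E) s p = -ContinuousLinearMap.id ℝ E) :
    IsSymmetryAt p (isoEquiv hs) := by
  obtain ⟨R, G⟩ := riemannian_geo (E := E) (M := M)
  obtain ⟨c, hcp, hφ, hψ, hx0⟩ := exists_loc' (E := E) p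
  have hD := hasFDerivAt_of_mfderiv hp hd
  rw [← hx0, ← hφ, ← hψ] at hD
  have hr := c.rpos
  -- `s` in the chart
  have hsp : c.φ (s (c.ψ c.x₀)) = c.x₀ := by
    rw [hcp, hp, ← hcp, c.φψ _ (mem_ball_self hr)]
  refine ⟨?_, hp, ?_⟩
  · -- involution
    have hsc : ContinuousAt (fun v => c.φ (s (c.ψ v))) c.x₀ := hD.continuousAt
    have hloc : HasFDerivAt (fun v => c.φ (s (s (c.ψ v)))) (ContinuousLinearMap.id ℝ E) c.x₀ := by
      have hcomp : HasFDerivAt (fun v => c.φ (s (c.ψ (c.φ (s (c.ψ v))))))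
          ((-ContinuousLinearMap.id ℝ E).comp (-ContinuousLinearMap.id ℝ E)) c.x₀ := by
        have h2 : HasFDerivAt (fun v => c.φ (s (c.ψ v))) (-ContinuousLinearMap.id ℝ E)
            (c.φ (s (c.ψ c.x₀))) := by rw [hsp]; exact hD
        exact HasFDerivAt.comp c.x₀ h2 hD
      have e : (-ContinuousLinearMap.id ℝ E).comp (-ContinuousLinearMap.id ℝ E) =
          ContinuousLinearMap.id ℝ E := by
        ext v; simp
      rw [e] at hcomp
      refine hcomp.congr_of_eventuallyEq ?_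
      -- near `x₀` we have `ψ (φ (s (ψ v))) = s (ψ v)`
      have hcont : ContinuousAt c.ψ c.x₀ := c.contψ.continuousAt (isOpen_ball.mem_nhds (mem_ball_self hr))
      have hcont2 : ContinuousAt (fun v => s (c.ψ v)) c.x₀ :=
        hs.continuous.continuousAt.comp hcont
      have hO : IsOpen (c.ψ '' ball c.x₀ c.r) := c.isOpen_image _ subset_rfl isOpen_ball
      have hmem : s (c.ψ c.x₀) ∈ c.ψ '' ball c.x₀ c.r := by
        rw [hcp, hp, ← hcp]; exact ⟨_, mem_ball_self hr, rfl⟩
      filter_upwards [hcont2.preimage_mem_nhds (hO.mem_nhds hmem)] with v hv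
      obtain ⟨w, hw, hwv⟩ := hv
      have hwv' : c.ψ w = s (c.ψ v) := hwv
      rw [← hwv', c.φψ w hw]
    have hθ : ∀ x y, dist (s (s x)) (s (s y)) = dist x y := fun x y => by
      rw [hs.dist_eq, hs.dist_eq]
    obtain ⟨δ, hδ, hfixδ⟩ := rigid_local c G.midpt (fun x => s (s x)) hθ
      (by simp only [hcp, hp]) hloc
    rw [hcp] at hfixδ
    have := G.eq_id ((isoEquiv hs).trans (isoEquiv hs)) (x := p) ⟨δ, hδ, hfixδ⟩
    exact this
  · -- isolated fixed point
    have h1 := (Asymptotics.isLittleO_iff.mp hD.isLittleO) (show (0 : ℝ) < 1 by norm_num)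
    obtain ⟨ε, hε, hball⟩ := Metric.mem_nhds_iff.mp h1
    have hL := c.one_le_L
    have hτ := c.τpos
    refine ⟨min c.τ (ε / c.L), lt_min hτ (by positivity), ?_⟩
    intro y hy hsy
    have hyτ : dist (c.ψ c.x₀) y < c.τ := by
      rw [hcp, dist_comm]; exact lt_of_lt_of_le hy (min_le_left _ _)
    have hyε : dist (c.ψ c.x₀) y < ε / c.L := by
      rw [hcp, dist_comm]; exact lt_of_lt_of_le hy (min_le_right _ _)
    obtain ⟨w, hw, hwy, hwle⟩ := c.in_chart (mem_ball_self c.r₁pos) hyτ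
    have hwε : w ∈ ball c.x₀ ε := by
      rw [mem_ball, dist_eq_norm]
      refine lt_of_le_of_lt hwle ?_
      rw [lt_div_iff₀ (by positivity)] at hyε
      linarith
    have h2 := hball hwε
    have hsy' : s y = y := hsy
    have h3 : c.φ (s (c.ψ w)) = w := by rw [hwy, hsy', ← hwy, c.φψ _ hw]
    simp only [Set.mem_ofPred_eq, hsp, h3] at h2
    have h4 : w - c.x₀ - (-ContinuousLinearMap.id ℝ E) (w - c.x₀) = (2 : ℝ) • (w - c.x₀) := by
      simp only [neg_apply, ContinuousLinearMap.id_apply]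
      module
    rw [h4, norm_smul, one_mul] at h2
    have h5 : ‖(2 : ℝ)‖ = 2 := by norm_num
    rw [h5] at h2
    have h6 : ‖w - c.x₀‖ = 0 := le_antisymm (by linarith) (norm_nonneg _)
    rw [norm_eq_zero, sub_eq_zero] at h6
    rw [← hwy, h6, hcp]

end Man

end Pool.Agent.X178.Nag
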